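import Pool.Agent.H80.EK.Basic
import Pool.Agent.H67.GT.MERT
import Pool.Agent.H94.WeylC

set_option autoImplicit false

/-! # MERT: sums over primes and the divisor bound -/

noncomputable section

namespace Pool.Agent.H80.EK

open Polynomial Finset

/-- Mertens: `∑_{p ≤ x} 1/p = log log x + O(1)` -/
theorem mert : ∃ C : ℝ, 0 < C ∧ ∀ x : ℝ, 2 ≤ x →
    |(∑ p ∈ PR 1 x, (1 : ℝ) / p) - Real.log (Real.log x)| ≤ C := by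
  sorry

/-- `∑_{p ≤ x} log p / p ≤ log x + C` -/
theorem mert_log : ∃ C : ℝ, 0 < C ∧ ∀ x : ℝ, 1 ≤ x →
    ∑ p ∈ PR 1 x, Real.log p / p ≤ Real.log x + C := by
  sorry

/-- `∑_{p ∣ n} 1/p ≤ log log log n + C` -/
theorem recip_dvd : ∃ C : ℝ, 0 < C ∧ ∀ n : ℕ, 1 ≤ n →
    ∑ p ∈ n.primeFactors, (1 : ℝ) / p ≤ C + l3 n := by
  sorry

/-- sums of `1/p²` -/
theorem sum_sq_le (S : Finset ℕ) (z : ℕ) (hz : 1 ≤ z) (hS : ∀ p ∈ S, z < p) :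
    ∑ p ∈ S, (1 : ℝ) / (p : ℝ) ^ 2 ≤ 1 / z := by
  sorry

/-- the divisor bound -/
theorem divisor_bound (ε : ℝ) (hε : 0 < ε) :
    ∃ C : ℝ, 1 ≤ C ∧ ∀ n : ℕ, 1 ≤ n → (n.divisors.card : ℝ) ≤ C * (n : ℝ) ^ ε := by
  sorry

/-- `d^ω(n) ≤ C n^ε` -/
theorem pow_omega_bound (d : ℕ) (ε : ℝ) (hε : 0 < ε) :
    ∃ C : ℝ, 1 ≤ C ∧ ∀ n : ℕ, 1 ≤ n → ((d : ℝ) ^ n.primeFactors.card) ≤ C * (n : ℝ) ^ ε := by
  sorry

/-- `ω(n) ≤ 2 log n` -/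
theorem omega_le_log (n : ℕ) (hn : 1 ≤ n) : (n.primeFactors.card : ℝ) ≤ 2 * Real.log n := by
  sorry

/-- few prime factors above `z` -/
theorem card_large_factors (n : ℕ) (hn : 1 ≤ n) (z : ℝ) (hz : 1 < z) :
    ((n.primeFactors.filter (fun p : ℕ => z < p)).card : ℝ) ≤ Real.log n / Real.log z := by
  sorry

lemma mem_PR {m : ℕ} {x : ℝ} {p : ℕ} (hx : 0 ≤ x) :
    p ∈ PR m x ↔ (p : ℝ) ≤ x ∧ p.Prime ∧ ¬ p ∣ m := by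
  sorry

/-- replacing `PR m` by `PR 1` costs at most the sum over the primes dividing `m` -/
lemma PR_one_sub (m : ℕ) (hm : 1 ≤ m) (x : ℝ) :
    ∑ p ∈ PR 1 x, (1 : ℝ) / p - ∑ p ∈ m.primeFactors, (1 : ℝ) / p ≤ ∑ p ∈ PR m x, (1 : ℝ) / p ∧
      ∑ p ∈ PR m x, (1 : ℝ) / p ≤ ∑ p ∈ PR 1 x, (1 : ℝ) / p := by
  sorry

end Pool.Agent.H80.EK
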