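import Pool.Agent.H80.EK.EquiB
import Pool.Agent.H80.EK.Mert

set_option autoImplicit false

/-! # BADP: primes dividing Q a_d -/

noncomputable section

namespace Pool.Agent.H80.EK

open Polynomial Finset

theorem bad_primes (f : ℝ[X]) (hd : 1 ≤ f.natDegree) : ∃ C R0 : ℝ, 0 < C ∧ 2 ≤ R0 ∧
    ∀ (N : ℕ) (Δ : ℝ) (Q : ℕ) (g : ℤ[X]), Major f N Δ Q g → 1 ≤ Δ → Δ ^ 64 ≤ N →
    R0 ≤ RR f N Q g →
    ∑ n ∈ Icc 1 N, (((mg Q g).primeFactors.filter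
      (fun p : ℕ => (p : ℤ) ∣ ⌊f.eval (n : ℝ)⌋)).card : ℝ) ≤ C * (1 + l3 N) * N := by
  sorry

end Pool.Agent.H80.EK
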