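import Pool.Agent.H80.EK.Defs

set_option autoImplicit false

/-! # Basic facts on `nn` and `e` -/

noncomputable section

namespace Pool.Agent.H80.EK

open Polynomial Finset

lemma nn_nonneg (x : ℝ) : 0 ≤ nn x := abs_nonneg _

lemma nn_le_half (x : ℝ) : nn x ≤ 1 / 2 := abs_sub_round x

lemma nn_le_abs_sub (x : ℝ) (m : ℤ) : nn x ≤ |x - m| := round_le x m

lemma exists_nn (x : ℝ) : ∃ m : ℤ, nn x = |x - m| := ⟨round x, rfl⟩

lemma nn_add_int (x : ℝ) (m : ℤ) : nn (x + m) = nn x := by
  unfold nn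
  rw [round_add_intCast]
  push_cast
  congr 1
  ring

lemma nn_add_le (x y : ℝ) : nn (x + y) ≤ nn x + nn y := by
  refine (nn_le_abs_sub (x + y) (round x + round y)).trans ?_
  have : x + y - ((round x + round y : ℤ) : ℝ) = (x - round x) + (y - round y) := by
    push_cast; ring
  rw [this]
  exact abs_add_le _ _

lemma nn_neg (x : ℝ) : nn (-x) = nn x := by
  have key : ∀ y : ℝ, nn (-y) ≤ nn y := by
    intro y
    refine (nn_le_abs_sub (-y) (-round y)).trans ?_
    have : -y - ((-round y : ℤ) : ℝ) = -(y - round y) := by push_cast; ring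
    rw [this, abs_neg]
    exact le_refl _
  refine le_antisymm (key x) ?_
  have := key (-x)
  rwa [neg_neg] at this

lemma nn_sub_le (x y : ℝ) : nn (x - y) ≤ nn x + nn y := by
  rw [sub_eq_add_neg]
  refine (nn_add_le x (-y)).trans ?_
  rw [nn_neg]

lemma nn_le_add (x y : ℝ) : nn x ≤ nn y + |x - y| := by
  refine (nn_le_abs_sub x (round y)).trans ?_
  have : x - ((round y : ℤ) : ℝ) = (y - round y) + (x - y) := by ring
  rw [this]
  exact abs_add_le _ _

lemma nn_int (m : ℤ) : nn (m : ℝ) = 0 := by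
  unfold nn; simp

lemma nn_int_mul_le (m : ℤ) (x : ℝ) : nn (m * x) ≤ |(m : ℝ)| * nn x := by
  refine (nn_le_abs_sub (m * x) (m * round x)).trans ?_
  have : (m : ℝ) * x - ((m * round x : ℤ) : ℝ) = m * (x - round x) := by push_cast; ring
  rw [this, abs_mul]
  exact le_refl _

lemma nn_nat_mul_le (m : ℕ) (x : ℝ) : nn (m * x) ≤ m * nn x := by
  have := nn_int_mul_le (m : ℤ) x
  simpa using this

lemma nn_le_abs (x : ℝ) : nn x ≤ |x| := by
  have := nn_le_abs_sub x 0
  simpa using this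

lemma nn_eq_abs {x : ℝ} (h : |x| < 1 / 2) : nn x = |x| := by
  have : round x = 0 := by
    rw [round_eq_zero_iff]
    rw [abs_lt] at h
    constructor <;> linarith [h.1, h.2]
  unfold nn
  rw [this]; simp

lemma e_add (x y : ℝ) : e (x + y) = e x * e y := by
  unfold e
  rw [← Complex.exp_add]
  congr 1
  push_cast; ring

lemma norm_e (x : ℝ) : ‖e x‖ = 1 := by
  unfold e
  have : (2 * Real.pi * x * Complex.I : ℂ) = ((2 * Real.pi * x : ℝ) : ℂ) * Complex.I := by
    push_cast; ring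
  rw [this, Complex.norm_exp_ofReal_mul_I]

lemma e_zero : e 0 = 1 := by unfold e; simp

lemma e_int (m : ℤ) : e (m : ℝ) = 1 := by
  unfold e
  have : (2 * Real.pi * ((m : ℝ) : ℂ) * Complex.I : ℂ) = m * (2 * Real.pi * Complex.I) := by
    push_cast; ring
  rw [this]
  exact Complex.exp_int_mul_two_pi_mul_I m

lemma e_add_int (x : ℝ) (m : ℤ) : e (x + m) = e x := by
  rw [e_add, e_int, mul_one]

lemma e_neg (x : ℝ) : e (-x) = (starRingEnd ℂ) (e x) := by
  unfold e
  rw [← Complex.exp_conj]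
  congr 1
  simp [Complex.ext_iff]

lemma e_ne_zero (x : ℝ) : e x ≠ 0 := Complex.exp_ne_zero _

lemma norm_e_sub_one_le (x : ℝ) : ‖e x - 1‖ ≤ 2 * Real.pi * |x| := by
  unfold e
  have h : (2 * Real.pi * x * Complex.I : ℂ) = Complex.I * ((2 * Real.pi * x : ℝ) : ℂ) := by
    push_cast; ring
  rw [h]
  refine (Real.norm_exp_I_mul_ofReal_sub_one_le).trans ?_
  rw [Real.norm_eq_abs, abs_mul, abs_of_pos (by positivity : (0 : ℝ) < 2 * Real.pi)]

lemma norm_e_sub_e_le (x y : ℝ) : ‖e x - e y‖ ≤ 2 * Real.pi * |x - y| := by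
  have h : e x - e y = e y * (e (x - y) - 1) := by
    rw [mul_sub, ← e_add]; simp
  rw [h, norm_mul, norm_e, one_mul]
  exact norm_e_sub_one_le _

/-- `|e(x) - 1| ≥ 4 ‖x‖` -/
lemma four_nn_le (x : ℝ) : 4 * nn x ≤ ‖e x - 1‖ := by
  have h1 : e x = e (x - round x) := by
    have := e_add_int (x - round x) (round x)
    rw [sub_add_cancel] at this
    exact this
  rw [h1]
  set t := x - round x with ht
  have htn : nn x = |t| := rfl
  have ht2 : |t| ≤ 1 / 2 := abs_sub_round x
  rw [htn]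
  have hn : ‖e t - 1‖ = 2 * |Real.sin (Real.pi * t)| := by
    unfold e
    have h : (2 * Real.pi * t * Complex.I : ℂ) = Complex.I * ((2 * Real.pi * t : ℝ) : ℂ) := by
      push_cast; ring
    rw [h, Complex.norm_exp_I_mul_ofReal_sub_one]
    rw [norm_mul, Real.norm_eq_abs, Real.norm_eq_abs]
    rw [abs_of_pos (by norm_num : (0 : ℝ) < 2)]
    congr 2
    ring_nf
  rw [hn]
  have hs : 2 / Real.pi * |Real.pi * t| ≤ |Real.sin (Real.pi * t)| := by
    have := Real.mul_abs_le_abs_sin (x := Real.pi * t) (by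
      rw [abs_mul, abs_of_pos Real.pi_pos]
      nlinarith [Real.pi_pos])
    exact this
  rw [abs_mul, abs_of_pos Real.pi_pos] at hs
  have hpi := Real.pi_pos
  have : 2 / Real.pi * (Real.pi * |t|) = 2 * |t| := by field_simp
  rw [this] at hs
  linarith

end Pool.Agent.H80.EK
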