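import Pool.Agent.H80.EK.Basic

set_option autoImplicit false

/-! # CLT2: asymptotics of the model -/

noncomputable section

namespace Pool.Agent.H80.EK

open Polynomial Finset

theorem model_limit (ξ : ℝ) (d : ℕ) (ε : ℝ) (hε : 0 < ε) : ∃ κ : ℝ, 0 < κ ∧ ∃ L0 : ℝ, 1 ≤ L0 ∧
    ∀ L : ℝ, L0 ≤ L → ∀ (P : Finset ℕ) (w : ℕ → ℝ), (∀ p ∈ P, 1 ≤ p) →
    (∀ p ∈ P, 0 ≤ w p ∧ w p ≤ (d : ℝ) / p) → |∑ p ∈ P, w p - L| ≤ κ * √L →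
    ‖Complex.exp (-(ξ * √L * Complex.I)) *
      ∏ p ∈ P, (1 + (Complex.exp (ξ / √L * Complex.I) - 1) * (w p : ℂ)) -
      Complex.exp (-(ξ : ℂ) ^ 2 / 2)‖ ≤ ε := by
  sorry

end Pool.Agent.H80.EK
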