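import Pool.Agent.H80.EK.Clt1
import Pool.Agent.H80.EK.Clt2

set_option autoImplicit false

/-! # CLT: the finite central limit theorem -/

noncomputable section

namespace Pool.Agent.H80.EK

open Polynomial Finset

theorem clt_core (ξ : ℝ) (d : ℕ) (ε : ℝ) (hε : 0 < ε) : ∃ κ : ℝ, 0 < κ ∧ ∃ L0 : ℝ, 1 ≤ L0 ∧
    ∀ L : ℝ, L0 ≤ L → ∀ {ι : Type} (s : Finset ι) (m : ι → ℤ) (P : Finset ℕ) (w : ℕ → ℝ)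
    (δ : ℝ) (K : ℕ), s.Nonempty → (∀ p ∈ P, p.Prime) →
    (∀ p ∈ P, 0 ≤ w p ∧ w p ≤ (d : ℝ) / p) → |∑ p ∈ P, w p - L| ≤ κ * √L → L ≤ K → 0 ≤ δ →
    (∀ T ⊆ P, T.card ≤ K → |((s.filter (fun i => ((∏ p ∈ T, p : ℕ) : ℤ) ∣ m i)).card : ℝ) /
      s.card - ∏ p ∈ T, w p| ≤ δ) → δ * (1 + (P.card : ℝ)) ^ K ≤ κ →
    ‖(1 / (s.card : ℂ)) * ∑ i ∈ s, Complex.exp (((ξ *
      (((P.filter (fun p : ℕ => (p : ℤ) ∣ m i)).card : ℝ) - L) / √L : ℝ) : ℂ) * Complex.I) -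
      Complex.exp (-(ξ : ℂ) ^ 2 / 2)‖ ≤ ε := by
  sorry

end Pool.Agent.H80.EK
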