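import Pool.Agent.H80.EK.Par

set_option autoImplicit false

/-! # LARGE: large primes and zeros -/

noncomputable section

namespace Pool.Agent.H80.EK

open Polynomial Finset

theorem large_primes (f : ℝ[X]) : ∃ C : ℝ, 0 < C ∧ ∃ N0 : ℕ, ∀ N : ℕ, N0 ≤ N →
    ∀ n ∈ Icc 1 N, ⌊f.eval (n : ℝ)⌋ ≠ 0 →
    (((⌊f.eval (n : ℝ)⌋.natAbs).primeFactors.filter (fun p : ℕ => zz N < p)).card : ℝ) ≤
      C * (LL N) ^ (1 / 4 : ℝ) := by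
  sorry

theorem few_zeros (f : ℝ[X]) (hd : 1 ≤ f.natDegree) : ∃ C : ℕ, ∀ N : ℕ,
    ((Icc 1 N).filter (fun n : ℕ => ⌊f.eval (n : ℝ)⌋ = 0)).card ≤ C := by
  sorry

end Pool.Agent.H80.EK
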