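import Pool.Agent.H80.EK.Equi
import Pool.Agent.H80.EK.Clt
import Pool.Agent.H80.EK.Large
import Pool.Agent.H80.EK.Mert

set_option autoImplicit false

/-! # CASEA: the minor arc case -/

noncomputable section

namespace Pool.Agent.H80.EK

open Polynomial Finset

theorem caseA (f : ℝ[X]) (hd : 1 ≤ f.natDegree) (c : ℝ) (hc : 0 < c) (hc1 : c ≤ 1)
    (ξ ε : ℝ) (hε : 0 < ε) :
    ∃ N0 : ℕ, ∀ N : ℕ, N0 ≤ N →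
    (∀ D h j : ℕ, 1 ≤ D → (D : ℝ) ≤ Del N → 1 ≤ h → (h : ℝ) ≤ Del N → j < D →
      ‖∑ n ∈ Icc 1 N, e (((h : ℝ) * f.eval (n : ℝ) + j * n) / D)‖ ≤ (Del N) ^ (-c) * N) →
    ‖(1 / (N : ℂ)) * ∑ n ∈ Icc 1 N, ph ξ N (om ⌊f.eval (n : ℝ)⌋ : ℝ) -
      Complex.exp (-(ξ : ℂ) ^ 2 / 2)‖ ≤ ε := by
  sorry

end Pool.Agent.H80.EK
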