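import Pool.Agent.H80.EK.Basic

set_option autoImplicit false

/-! # DENS: densities of the values of a polynomial on progressions -/

noncomputable section

namespace Pool.Agent.H80.EK

open Polynomial Finset

theorem rho_le_self (G : ℤ[X]) (D : ℕ) : rho G D ≤ D := by
  sorry

theorem rho_le (G : ℤ[X]) (p : ℕ) (hp : p.Prime) (h : ¬ (p : ℤ) ∣ G.leadingCoeff) :
    rho G p ≤ G.natDegree := by
  sorry

theorem rho_gr_congr (g : ℤ[X]) (D : ℕ) (r r' : ℤ) (h : (D : ℤ) ∣ r - r') :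
    rho (gr g r) D = rho (gr g r') D := by
  sorry

theorem sum_rho_gr (g : ℤ[X]) (D : ℕ) (hD : 1 ≤ D) :
    ∑ r ∈ range D, rho (gr g (r : ℤ)) D = D := by
  sorry

theorem rho_prod (G : ℤ[X]) (T : Finset ℕ) (hT : ∀ p ∈ T, p.Prime) :
    rho G (∏ p ∈ T, p) = ∏ p ∈ T, rho G p := by
  sorry

theorem dens (G : ℤ[X]) (D Q ℓ : ℕ) (n0 : ℤ) (hD : 1 ≤ D) (hc : D.Coprime Q) :
    |(((range ℓ).filter (fun s : ℕ => (D : ℤ) ∣ G.eval (n0 + (Q : ℤ) * s))).card : ℝ) -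
      (ℓ : ℝ) * rho G D / D| ≤ rho G D := by
  sorry

end Pool.Agent.H80.EK
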