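import Pool.Agent.H80.EK.Basic

set_option autoImplicit false

/-! # PAR: parameters -/

noncomputable section

namespace Pool.Agent.H80.EK

open Polynomial Finset

/-- `L = log log N` -/
def LL (N : ℕ) : ℝ := Real.log (Real.log N)

/-- `Δ = exp(log N / L^(1/8))` -/
def Del (N : ℕ) : ℝ := Real.exp (Real.log N / (LL N) ^ (1 / 8 : ℝ))

/-- `y = exp(log N / L^2)` -/
def yy (N : ℕ) : ℝ := Real.exp (Real.log N / (LL N) ^ 2)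

/-- `z = exp(log N / L^(1/4))` -/
def zz (N : ℕ) : ℝ := Real.exp (Real.log N / (LL N) ^ (1 / 4 : ℝ))

/-- the phase `exp(i ξ (a - L)/√L)` -/
def ph (ξ : ℝ) (N : ℕ) (a : ℝ) : ℂ := Complex.exp (((ξ * (a - LL N) / √(LL N) : ℝ) : ℂ) * Complex.I)

theorem LL_tendsto : Filter.Tendsto LL Filter.atTop Filter.atTop := by
  sorry

/-- `Δ → ∞`, `Δ^64 ≤ N` eventually -/
theorem Del_large (B : ℝ) : ∃ N0 : ℕ, ∀ N : ℕ, N0 ≤ N → B ≤ Del N ∧ (Del N) ^ 64 ≤ N := by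
  sorry

/-- comparison of the scales: for all `c > 0`, eventually `z ≤ Δ^c`, `(1+y)^K ≤ Δ^c`,
`z^2 ≤ N^c`, where `K = ⌈L⌉` -/
theorem scales (c : ℝ) (hc : 0 < c) : ∃ N0 : ℕ, ∀ N : ℕ, N0 ≤ N →
    1 ≤ LL N ∧ 2 ≤ yy N ∧ yy N ≤ zz N ∧ zz N ≤ (Del N) ^ c ∧
    (1 + yy N) ^ ⌈LL N⌉₊ ≤ (Del N) ^ c ∧ Del N ≤ (N : ℝ) ^ c := by
  sorry

/-- `log log y = L - 2 log L`, `log log z = L - (1/4) log L` -/
theorem loglog_yy : ∃ N0 : ℕ, ∀ N : ℕ, N0 ≤ N →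
    Real.log (Real.log (yy N)) = LL N - 2 * Real.log (LL N) ∧
    Real.log (Real.log (zz N)) = LL N - 1 / 4 * Real.log (LL N) := by
  sorry

/-- small terms: for all `C` and `κ > 0`, eventually `C (1 + l3 N + log L + L^(1/4)) ≤ κ √L` -/
theorem small_terms (C κ : ℝ) (hκ : 0 < κ) : ∃ N0 : ℕ, ∀ N : ℕ, N0 ≤ N →
    C * (1 + l3 N + Real.log (LL N) + (LL N) ^ (1 / 4 : ℝ)) ≤ κ * √(LL N) := by
  sorry

theorem norm_ph (ξ : ℝ) (N : ℕ) (a : ℝ) : ‖ph ξ N a‖ = 1 := by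
  sorry

theorem norm_ph_sub (ξ : ℝ) (N : ℕ) (hN : 0 < LL N) (a b : ℝ) :
    ‖ph ξ N a - ph ξ N b‖ ≤ |ξ| / √(LL N) * |a - b| := by
  sorry

end Pool.Agent.H80.EK
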