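import Pool.Agent.H80.EK.Clt
import Pool.Agent.H80.EK.Dens
import Pool.Agent.H80.EK.Par
import Pool.Agent.H80.EK.Mert

set_option autoImplicit false

/-! # CELLC: the central limit theorem on one cell -/

noncomputable section

namespace Pool.Agent.H80.EK

open Polynomial Finset

theorem cell_clt (d : ℕ) (hd : 1 ≤ d) (ξ Cε ε : ℝ) (hCε : 0 < Cε) (hε : 0 < ε) : ∃ N0 : ℕ,
    ∀ N : ℕ, N0 ≤ N → ∀ (Q ℓ : ℕ) (g : ℤ[X]) (r n0 : ℤ) (v : ℕ → ℤ), g.natDegree = d → 1 ≤ Q →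
    (N : ℝ) ^ (1 / 2 : ℝ) ≤ ℓ →
    (∀ s < ℓ, (Q : ℤ) * v s = g.eval (n0 + (Q : ℤ) * s) - r) →
    (∀ y : ℝ, 2 ≤ y → |∑ p ∈ PR (mg Q g) y, (rho (gr g r) p : ℝ) / p -
      Real.log (Real.log y)| ≤ Cε * (1 + l3 N)) →
    ‖(1 / (ℓ : ℂ)) * ∑ s ∈ range ℓ,
      ph ξ N (((PR (mg Q g) (yy N)).filter (fun p : ℕ => (p : ℤ) ∣ v s)).card : ℝ) -
      Complex.exp (-(ξ : ℂ) ^ 2 / 2)‖ ≤ ε := by
  sorry

/-- on a cell the primes in `(y, z]` contribute `O(log L)` on average -/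
theorem cell_mid (d : ℕ) (hd : 1 ≤ d) : ∃ (C : ℝ) (N0 : ℕ), 0 < C ∧
    ∀ N : ℕ, N0 ≤ N → ∀ (Q ℓ : ℕ) (g : ℤ[X]) (r n0 : ℤ) (v : ℕ → ℤ), g.natDegree = d → 1 ≤ Q →
    (N : ℝ) ^ (1 / 2 : ℝ) ≤ ℓ →
    (∀ s < ℓ, (Q : ℤ) * v s = g.eval (n0 + (Q : ℤ) * s) - r) →
    ∑ s ∈ range ℓ, (((PR (mg Q g) (zz N)).filter
      (fun p : ℕ => yy N < p ∧ (p : ℤ) ∣ v s)).card : ℝ) ≤ C * Real.log (LL N) * ℓ := by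
  sorry

end Pool.Agent.H80.EK
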