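import Pool.Agent.H80.EK.GoodC
import Pool.Agent.H80.EK.CellC
import Pool.Agent.H80.EK.BadP
import Pool.Agent.H80.EK.Large

set_option autoImplicit false

/-! # CASEB: the major arc case -/

noncomputable section

namespace Pool.Agent.H80.EK

open Polynomial Finset

theorem caseB (f : ℝ[X]) (hf : ∃ j, 1 ≤ j ∧ Irrational (f.coeff j)) (ξ ε : ℝ) (hε : 0 < ε) :
    ∃ N0 : ℕ, ∀ N : ℕ, N0 ≤ N → ∀ (Q : ℕ) (g : ℤ[X]), Major f N (Del N) Q g →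
    ‖(1 / (N : ℂ)) * ∑ n ∈ Icc 1 N, ph ξ N (om ⌊f.eval (n : ℝ)⌋ : ℝ) -
      Complex.exp (-(ξ : ℂ) ^ 2 / 2)‖ ≤ ε := by
  sorry

end Pool.Agent.H80.EK
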