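import Pool.Agent.H80.EK.Basic

set_option autoImplicit false

/-! # CELLS: the block decomposition in the major arc case -/

noncomputable section

namespace Pool.Agent.H80.EK

open Polynomial Finset

theorem rr_eq (f : ℝ[X]) (Q : ℕ) (hQ : 1 ≤ Q) (g : ℤ[X]) (n : ℕ) (k : ℤ)
    (h : ⌊(Q : ℝ) * f.eval (n : ℝ)⌋ - g.eval (n : ℤ) = k) :
    rr f Q g n = (g.eval (n : ℤ) + k) % (Q : ℤ) - k := by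
  sorry

theorem cells (f : ℝ[X]) (hd : 1 ≤ f.natDegree) : ∃ C R0 : ℝ, 1 ≤ C ∧ 2 ≤ R0 ∧
    ∀ (N : ℕ) (Δ : ℝ) (Q : ℕ) (g : ℤ[X]), Major f N Δ Q g → 1 ≤ Δ → Δ ^ 64 ≤ N →
    R0 ≤ RR f N Q g → ∃ (ℓ T : ℕ) (Bad : Finset ℕ), (N : ℝ) ^ (1 / 2 : ℝ) ≤ ℓ ∧ 1 ≤ T ∧
      T * Q * ℓ ≤ N ∧ (N : ℝ) - T * Q * ℓ ≤ C / (RR f N Q g) * N ∧
      Bad ⊆ range T ∧ (Bad.card : ℝ) ≤ C / (RR f N Q g) * T ∧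
      ∀ t ∈ range T \ Bad, ∃ k : ℤ, |(k : ℝ)| ≤ C * (RR f N Q g) ^ 2 ∧
        ∀ n : ℕ, t * Q * ℓ < n → n ≤ (t + 1) * Q * ℓ →
          ⌊(Q : ℝ) * f.eval (n : ℝ)⌋ - g.eval (n : ℤ) = k := by
  sorry

end Pool.Agent.H80.EK
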