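import Pool.Agent.H80.EK.Basic

set_option autoImplicit false

/-! # CLT1: inclusion-exclusion for the generating function -/

noncomputable section

namespace Pool.Agent.H80.EK

open Polynomial Finset

theorem pow_trunc (z : ℂ) (hz : ‖1 + z‖ ≤ 1) (W K : ℕ) :
    ‖(1 + z) ^ W - ∑ j ∈ range K, (W.choose j : ℂ) * z ^ j‖ ≤ (W.choose K : ℝ) * ‖z‖ ^ K := by
  sorry

/-- comparison of `E (1+z)^W` with the Euler product -/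
theorem gen_compare {ι : Type} (s : Finset ι) (hs : s.Nonempty) (m : ι → ℤ) (P : Finset ℕ)
    (hP : ∀ p ∈ P, p.Prime) (w : ℕ → ℝ) (hw : ∀ p ∈ P, 0 ≤ w p) (z : ℂ) (hz : ‖1 + z‖ ≤ 1)
    (hz1 : ‖z‖ ≤ 1) (δ : ℝ) (hδ : 0 ≤ δ) (K : ℕ)
    (hK : 6 * (‖z‖ * ∑ p ∈ P, w p) ≤ K)
    (h : ∀ T ⊆ P, T.card ≤ K → |((s.filter (fun i => ((∏ p ∈ T, p : ℕ) : ℤ) ∣ m i)).card : ℝ) /
      s.card - ∏ p ∈ T, w p| ≤ δ) :
    ‖(1 / (s.card : ℂ)) * ∑ i ∈ s, (1 + z) ^ (P.filter (fun p : ℕ => (p : ℤ) ∣ m i)).card -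
      ∏ p ∈ P, (1 + z * (w p : ℂ))‖ ≤ δ * (1 + (P.card : ℝ)) ^ K + 4 * (1 / 2 : ℝ) ^ K := by
  sorry

end Pool.Agent.H80.EK
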