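import Pool.Agent.H80.EK.Idx

set_option autoImplicit false

/-! # SHORT: short vectors in the lattice of an ideal -/

noncomputable section

namespace Pool.Agent.H80.EK

open Polynomial Finset NumberField

variable {K : Type} [Field K] [NumberField K]

theorem short_vectors {d : ℕ} {θ : 𝓞 K} {f : ℤ[X]} {B : ℕ} {R : ℝ} (h : NFD K d θ f B R)
    (I : Ideal (𝓞 K)) (hI0 : I ≠ ⊥) (hI : (Ideal.absNorm I).Coprime B) (L : ℕ)
    (hL : Ideal.absNorm I < (L + 1) ^ d) :
    ∃ v : Fin d → Fin d → ℤ, LinearIndependent ℤ v ∧ (∀ i, v i ∈ lat θ d I) ∧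
      ∀ i j, |(v i j : ℝ)| ≤ L * (1 + R) ^ d := by
  sorry

end Pool.Agent.H80.EK
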