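import Pool.Agent.H80.EK.Lat
import Pool.Agent.H80.EK.Short

set_option autoImplicit false

/-! # CNT: box elements in an ideal -/

noncomputable section

namespace Pool.Agent.H80.EK

open Polynomial Finset NumberField

variable {K : Type} [Field K] [NumberField K]

open Classical in
theorem count_box {d : ℕ} {θ : 𝓞 K} {f : ℤ[X]} {B : ℕ} {R : ℝ} (h : NFD K d θ f B R)
    (I : Ideal (𝓞 K)) (hI0 : I ≠ ⊥) (hI : (Ideal.absNorm I).Coprime B) (c : Fin d → ℤ) (Y : ℕ)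
    (hY : 16 * (d : ℝ) ^ 2 * (1 + R) ^ d * ((Ideal.absNorm I : ℝ) ^ (1 / (d : ℝ)) + 1) ≤ Y) :
    (Y : ℝ) ^ d / 2 ≤ (((box d c Y).filter (fun w => 1 + (B : 𝓞 K) * co θ d w ∈ I)).card : ℝ) *
      Ideal.absNorm I ∧
    (((box d c Y).filter (fun w => 1 + (B : 𝓞 K) * co θ d w ∈ I)).card : ℝ) *
      Ideal.absNorm I ≤ 2 * (Y : ℝ) ^ d := by
  sorry

end Pool.Agent.H80.EK
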