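import Mathlib

set_option autoImplicit false

/-! # Erdős-Kac law for integer parts of real polynomials: definitions (MP_75c0be_nt) -/

noncomputable section

namespace Pool.Agent.H80.EK

open Polynomial Finset

/-- `e x = exp(2 pi i x)` -/
def e (x : ℝ) : ℂ := Complex.exp (2 * Real.pi * x * Complex.I)

/-- distance to the nearest integer -/
def nn (x : ℝ) : ℝ := |x - round x|

/-- number of distinct primes dividing `|m|`; it is `0` for `m = 0` -/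
def om (m : ℤ) : ℕ := m.natAbs.primeFactors.card

/-- `rho G D` is the number of `0 ≤ x < D` with `D ∣ G(x)` -/
def rho (G : ℤ[X]) (D : ℕ) : ℕ := ((range D).filter (fun x : ℕ => (D : ℤ) ∣ G.eval (x : ℤ))).card

/-- the primes `p ≤ x` that do not divide `m` (`PR 1 x` is the set of all primes `≤ x`) -/
def PR (m : ℕ) (x : ℝ) : Finset ℕ := (Icc 1 ⌊x⌋₊).filter (fun p => p.Prime ∧ ¬ p ∣ m)

/-- an iterated logarithm, nonnegative for `x ≥ 1` -/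
def l3 (x : ℝ) : ℝ := Real.log (1 + Real.log (1 + Real.log x))

/-- The quantitative inverse theorem for Weyl sums in degree `≤ d`. -/
def WeylInv (d : ℕ) : Prop :=
  ∃ C : ℕ, 1 ≤ C ∧ ∀ P : ℝ[X], P.natDegree ≤ d → ∀ N : ℕ, 1 ≤ N → ∀ a b : ℕ, b ≤ N →
    ∀ K : ℝ, 1 ≤ K → (N : ℝ) / K ≤ ‖∑ n ∈ Ioc a b, e (P.eval (n : ℝ))‖ →
    ∃ q : ℕ, 1 ≤ q ∧ (q : ℝ) ≤ C * K ^ C ∧
      ∀ i ∈ Icc 1 d, nn (q * P.coeff i) ≤ C * K ^ C / (N : ℝ) ^ i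

/-- The same for the top coefficient only. -/
def WeylTop (d : ℕ) : Prop :=
  ∃ C : ℕ, 1 ≤ C ∧ ∀ P : ℝ[X], P.natDegree ≤ d → ∀ N : ℕ, 1 ≤ N → ∀ a b : ℕ, b ≤ N →
    ∀ K : ℝ, 1 ≤ K → (N : ℝ) / K ≤ ‖∑ n ∈ Ioc a b, e (P.eval (n : ℝ))‖ →
    ∃ q : ℕ, 1 ≤ q ∧ (q : ℝ) ≤ C * K ^ C ∧ nn (q * P.coeff d) ≤ C * K ^ C / (N : ℝ) ^ d

/-- Major arc data for `f` at `N`: the coefficients of positive degree of `f` are close to those of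
`g / Q`. -/
structure Major (f : ℝ[X]) (N : ℕ) (Δ : ℝ) (Q : ℕ) (g : ℤ[X]) : Prop where
  hQ1 : 1 ≤ Q
  hQ : (Q : ℝ) ≤ Δ ^ 2
  hg0 : g.coeff 0 = 0
  hgd : g.natDegree = f.natDegree
  hlead : |f.leadingCoeff| / 2 * Q ≤ |(g.leadingCoeff : ℝ)|
  happ : ∀ j ∈ Icc 1 f.natDegree, |f.coeff j - (g.coeff j : ℝ) / Q| ≤ Δ ^ 2 / (N : ℝ) ^ j
  hcop : ∀ m : ℕ, m ∣ Q → (∀ j, (m : ℤ) ∣ g.coeff j) → m = 1

/-- the size parameter of the major arc data -/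
def RR (f : ℝ[X]) (N Q : ℕ) (g : ℤ[X]) : ℝ :=
  2 + Q + ∑ j ∈ Icc 1 f.natDegree, |f.coeff j - (g.coeff j : ℝ) / Q| * (N : ℝ) ^ j

/-- `r(n) = g(n) - Q ⌊f(n)⌋` -/
def rr (f : ℝ[X]) (Q : ℕ) (g : ℤ[X]) (n : ℕ) : ℤ := g.eval (n : ℤ) - Q * ⌊f.eval (n : ℝ)⌋

/-- `Q |a_d|` -/
def mg (Q : ℕ) (g : ℤ[X]) : ℕ := Q * g.leadingCoeff.natAbs

/-- `G = g - r` -/
def gr (g : ℤ[X]) (r : ℤ) : ℤ[X] := g - C r

end Pool.Agent.H80.EK
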