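import Pool.Agent.H80.EK.Basic

set_option autoImplicit false

/-! # DIFF: van der Corput differencing -/

noncomputable section

namespace Pool.Agent.H80.EK

open Polynomial Finset

theorem weyl_diff (P : ℝ[X]) (N a b : ℕ) (hN : 1 ≤ N) (hb : b ≤ N) (K : ℝ) (hK : 1 ≤ K)
    (hbig : 8 * K ^ 2 ≤ N) (h : (N : ℝ) / K ≤ ‖∑ n ∈ Ioc a b, e (P.eval (n : ℝ))‖) :
    (N : ℝ) / (8 * K ^ 2) ≤ (((Icc 1 N).filter (fun h : ℕ => (N : ℝ) / (4 * K ^ 2) ≤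
      ‖∑ n ∈ Ioc a (b - h), e ((P.comp (X + C (h : ℝ)) - P).eval (n : ℝ))‖)).card : ℝ) := by
  sorry

end Pool.Agent.H80.EK
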