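import Pool.Agent.H80.EK.NFDefs

set_option autoImplicit false

/-! # NBOX: norms of the elements of the box -/

noncomputable section

namespace Pool.Agent.H80.EK

open Polynomial Finset NumberField

variable {K : Type} [Field K] [NumberField K]

theorem norm_box {d : ℕ} {θ : 𝓞 K} {f : ℤ[X]} {B : ℕ} {R : ℝ} (h : NFD K d θ f B R)
    (Y0 Y : ℕ) (hY0 : 16 * d ≤ Y0) (hY : (Y : ℝ) * (16 * (d : ℝ) ^ 2 * (1 + R) ^ d) ≤ Y0)
    (w : Fin d → ℤ) (hw : w ∈ box d (fun i => if (i : ℕ) = 0 then (Y0 : ℤ) else 0) Y) :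
    Real.exp (-(1 / 4)) * ((B : ℝ) * Y0) ^ d ≤
      (Ideal.absNorm (Ideal.span {1 + (B : 𝓞 K) * co θ d w}) : ℝ) ∧
    (Ideal.absNorm (Ideal.span {1 + (B : 𝓞 K) * co θ d w}) : ℝ) ≤
      Real.exp (1 / 4) * ((B : ℝ) * Y0) ^ d := by
  sorry

end Pool.Agent.H80.EK
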