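import Pool.Agent.H80.EK.Cnt
import Pool.Agent.H80.EK.NBox

set_option autoImplicit false

/-! # DUAL: divisor duality -/

noncomputable section

namespace Pool.Agent.H80.EK

open Polynomial Finset NumberField

theorem duality (d : ℕ) (hd : 1 ≤ d) : ∃ C : ℝ, 1 ≤ C ∧ ∀ (K : Type) [Field K] [NumberField K]
    (θ : 𝓞 K) (f : ℤ[X]) (B : ℕ) (R : ℝ), NFD K d θ f B R → ∀ a b h : ℝ,
    C * Real.log R ≤ a → C * Real.log R ≤ b → 0 ≤ h →
    SI K B (Real.exp a) (Real.exp (a + h)) ≤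
      4 * SI K B (Real.exp (b - 1)) (Real.exp (b + h + 1)) := by
  sorry

end Pool.Agent.H80.EK
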