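import Pool.Agent.H80.EK.Par

set_option autoImplicit false

/-! # LEVY: from characteristic functions to the distribution function -/

noncomputable section

namespace Pool.Agent.H80.EK

open Polynomial Finset

open MeasureTheory ProbabilityTheory Filter Topology in
theorem levy (a : ℕ → ℕ → ℝ)
    (h : ∀ ξ : ℝ, Tendsto (fun N : ℕ => (1 / (N : ℂ)) * ∑ n ∈ Icc 1 N,
      Complex.exp (((ξ * a N n : ℝ) : ℂ) * Complex.I)) atTop
      (𝓝 (Complex.exp (-(ξ : ℂ) ^ 2 / 2)))) (t : ℝ) :
    Tendsto (fun N : ℕ => (((Icc 1 N).filter (fun n : ℕ => a N n ≤ t)).card : ℝ) / N) atTop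
      (𝓝 (gaussianReal 0 1 (Set.Iic t)).toReal) := by
  sorry

end Pool.Agent.H80.EK
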