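import Pool.Agent.H80.EK.CaseA
import Pool.Agent.H80.EK.CaseB
import Pool.Agent.H80.EK.Dich
import Pool.Agent.H80.EK.Levy

set_option autoImplicit false

/-! # EKMAIN: the theorem -/

noncomputable section

namespace Pool.Agent.H80.EK

open Polynomial Finset

open MeasureTheory ProbabilityTheory Filter Topology in
theorem erdos_kac_floor (f : ℝ[X]) (hf : ∃ j, 1 ≤ j ∧ Irrational (f.coeff j)) (t : ℝ) :
    Tendsto (fun N : ℕ => (((Icc 1 N).filter (fun n : ℕ =>
      ((om ⌊f.eval (n : ℝ)⌋ : ℝ) - Real.log (Real.log N)) / √(Real.log (Real.log N)) ≤ t)).card : ℝ)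
        / N) atTop
      (𝓝 (gaussianReal 0 1 (Set.Iic t)).toReal) := by
  sorry

end Pool.Agent.H80.EK
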