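import Pool.Agent.H80.EK.Four

set_option autoImplicit false

/-! # EQUI: joint equidistribution of n and ⌊f(n)⌋ modulo D -/

noncomputable section

namespace Pool.Agent.H80.EK

open Polynomial Finset

theorem equi_of_sums : ∃ C : ℝ, 1 ≤ C ∧ ∀ (f : ℕ → ℝ) (N D H : ℕ) (δ : ℝ), 1 ≤ D → 1 ≤ H →
    0 ≤ δ → 2 * D ≤ N →
    (∀ h ∈ Icc 1 H, ∀ j ∈ range D,
      ‖∑ n ∈ Icc 1 N, e (((h : ℝ) * f n + j * n) / D)‖ ≤ δ * N) →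
    ∀ u v : ℤ, |(((Icc 1 N).filter (fun n : ℕ => (D : ℤ) ∣ (n : ℤ) - u ∧
      (D : ℤ) ∣ ⌊f n⌋ - v)).card : ℝ) / N - 1 / (D : ℝ) ^ 2| ≤
        C * ((H : ℝ) ^ (-(1 / 3 : ℝ)) + D * H * δ + 1 / N) := by
  sorry

end Pool.Agent.H80.EK
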