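import Pool.Agent.H80.EK.SumsB
import Pool.Agent.H80.EK.Equi

set_option autoImplicit false

/-! # EQUIB: equidistribution in the major arc case -/

noncomputable section

namespace Pool.Agent.H80.EK

open Polynomial Finset

theorem equiB (f : ℝ[X]) (hd : 1 ≤ f.natDegree) : ∃ c : ℝ, 0 < c ∧ c ≤ 1 ∧ ∃ R0 : ℝ, 2 ≤ R0 ∧
    ∀ (N : ℕ) (Δ : ℝ) (Q : ℕ) (g : ℤ[X]), Major f N Δ Q g → 1 ≤ Δ → Δ ^ 64 ≤ N →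
    R0 ≤ RR f N Q g → ∀ D : ℕ, 1 ≤ D → (D : ℝ) ≤ (RR f N Q g) ^ c → ∀ u v : ℤ,
    |(((Icc 1 N).filter (fun n : ℕ => (D : ℤ) ∣ (n : ℤ) - u ∧
      (D : ℤ) ∣ ⌊f.eval (n : ℝ)⌋ - v)).card : ℝ) / N - 1 / (D : ℝ) ^ 2| ≤
        (RR f N Q g) ^ (-(10 * c)) := by
  sorry

end Pool.Agent.H80.EK
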