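import Pool.Agent.H80.EK.NFDefs

set_option autoImplicit false

/-! # FLD: the number field of an irreducible integer polynomial -/

noncomputable section

namespace Pool.Agent.H80.EK

open Polynomial Finset NumberField

theorem field_data (d : ℕ) (hd : 1 ≤ d) : ∃ C : ℝ, 1 ≤ C ∧ ∀ (G : ℤ[X]) (m : ℕ) (H : ℝ),
    2 ≤ H → G.natDegree = d → Irreducible (G.map (Int.castRingHom ℚ)) →
    (∀ i, |(G.coeff i : ℝ)| ≤ H) → 1 ≤ m → (m : ℝ) ≤ H → G.leadingCoeff.natAbs ∣ m →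
    ∃ (K : Type) (_ : Field K) (_ : NumberField K) (θ : 𝓞 K) (f : ℤ[X]) (B : ℕ),
      NFD K d θ f B (H ^ C) ∧ m ∣ B ∧ ∀ p : ℕ, p.Prime → ¬ p ∣ B → rho f p = rho G p := by
  sorry

end Pool.Agent.H80.EK
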