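import Pool.Agent.H80.EK.Basic

set_option autoImplicit false

/-! # FOUR: equidistribution modulo one from exponential sums -/

noncomputable section

namespace Pool.Agent.H80.EK

open Polynomial Finset

theorem fourier_equi : ∃ C : ℝ, 1 ≤ C ∧ ∀ {ι : Type} (s : Finset ι) (x : ι → ℝ) (H : ℕ) (δ : ℝ),
    1 ≤ H → 0 ≤ δ → (∀ h ∈ Icc 1 H, ‖∑ i ∈ s, e (h * x i)‖ ≤ δ * s.card) →
    ∀ a b : ℝ, 0 ≤ a → a ≤ b → b ≤ 1 →
    |((s.filter (fun i => a ≤ Int.fract (x i) ∧ Int.fract (x i) < b)).card : ℝ) -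
      (b - a) * s.card| ≤ C * ((H : ℝ) ^ (-(1 / 3 : ℝ)) + δ * H) * s.card := by
  sorry

end Pool.Agent.H80.EK
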