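import Pool.Agent.H80.EK.Basic

set_option autoImplicit false

/-! # ROOTD: roots of polynomials modulo composite numbers -/

noncomputable section

namespace Pool.Agent.H80.EK

open Polynomial Finset

/-- the number of roots of `h` modulo `δ` is at most `2 n δ (δ/M)^(-2/(n(n+1)))`, `n = deg h` or
larger, if every divisor of `δ` dividing all coefficients of `h` is at most `M` -/
theorem root_count (n : ℕ) (hn : 1 ≤ n) (h : ℤ[X]) (hh : h.natDegree ≤ n) (δ M : ℕ) (hδ : 1 ≤ δ)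
    (hM : 1 ≤ M) (hc : ∀ m : ℕ, m ∣ δ → (∀ j, (m : ℤ) ∣ h.coeff j) → m ≤ M) :
    (rho h δ : ℝ) ≤ 2 * n * δ * ((δ : ℝ) / M) ^ (-(2 / ((n : ℝ) * (n + 1)))) := by
  sorry

end Pool.Agent.H80.EK
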