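import Pool.Agent.H80.EK.Basic

set_option autoImplicit false

/-! # SOL: solutions of g(c) = r mod Q with small derivative gcd -/

noncomputable section

namespace Pool.Agent.H80.EK

open Polynomial Finset

theorem sol_count (g : ℤ[X]) (Q : ℕ) (hQ : 1 ≤ Q) (hg0 : g.coeff 0 = 0)
    (hcop : ∀ m : ℕ, m ∣ Q → (∀ j, (m : ℤ) ∣ g.coeff j) → m = 1) (r : ℤ) (δ : ℕ) :
    ((range Q).filter (fun c : ℕ => (Q : ℤ) ∣ g.eval (c : ℤ) - r ∧
      Int.gcd ((derivative g).eval (c : ℤ)) Q = δ)).card ≤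
      g.natDegree ^ Q.primeFactors.card * δ ^ 2 := by
  sorry

end Pool.Agent.H80.EK
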