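import Pool.Agent.H80.EK.Redu
import Pool.Agent.H80.EK.Sol
import Pool.Agent.H80.EK.RootD
import Pool.Agent.H80.EK.Mert

set_option autoImplicit false

/-! # IRR: g - r is irreducible for most cells -/

noncomputable section

namespace Pool.Agent.H80.EK

open Polynomial Finset

open Classical in
theorem irr_count (d : ℕ) (hd : 1 ≤ d) (c0 C0 : ℝ) (hc0 : 0 < c0) (hC0 : 0 < C0) :
    ∃ C c : ℝ, 0 < C ∧ 0 < c ∧ ∀ (Q : ℕ) (g : ℤ[X]), 1 ≤ Q → g.natDegree = d →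
    g.coeff 0 = 0 → (∀ j, |(g.coeff j : ℝ)| ≤ C0 * Q) → c0 * Q ≤ |(g.leadingCoeff : ℝ)| →
    (∀ m : ℕ, m ∣ Q → (∀ j, (m : ℤ) ∣ g.coeff j) → m = 1) → ∀ k u : ℤ,
    (((range Q).filter (fun c : ℕ => ¬ Irreducible
      ((gr g ((g.eval ((c : ℤ) + u) + k) % (Q : ℤ) - k)).map (Int.castRingHom ℚ)))).card : ℝ) ≤
      C * (Q : ℝ) ^ (1 - c) := by
  sorry

end Pool.Agent.H80.EK
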