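import Pool.Agent.H80.EK.Idx

set_option autoImplicit false

/-! # PRM: ideals of norm p and roots modulo p -/

noncomputable section

namespace Pool.Agent.H80.EK

open Polynomial Finset NumberField

variable {K : Type} [Field K] [NumberField K]

theorem np_eq_rho {d : ℕ} {θ : 𝓞 K} {f : ℤ[X]} {B : ℕ} {R : ℝ} (h : NFD K d θ f B R)
    (p : ℕ) (hp : p.Prime) (hpB : ¬ p ∣ B) : np K p = rho f p := by
  sorry

end Pool.Agent.H80.EK
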