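import Pool.Agent.H80.EK.Npb
import Pool.Agent.H80.EK.Mert

set_option autoImplicit false

/-! # PROD: products of ideals -/

noncomputable section

namespace Pool.Agent.H80.EK

open Polynomial Finset NumberField

theorem SI_prod (d k : ℕ) (hd : 1 ≤ d) (hk : 1 ≤ k) : ∃ c : ℝ, 0 < c ∧
    ∀ (K : Type) [Field K] [NumberField K], Module.finrank ℚ K = d → ∀ B : ℕ, 1 ≤ B →
    ∀ x y : ℝ, 2 * (k : ℝ) ≤ x → x ≤ y → 1 ≤ MM K B y - MM K B x →
    c * SI K B 0 x ≤ SI K B (x ^ k) (x * y ^ k) := by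
  sorry

end Pool.Agent.H80.EK
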