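import Pool.Agent.H80.EK.Npb
import Pool.Agent.H80.EK.Mert

set_option autoImplicit false

/-! # SLOW: lower bound for the sum over ideals -/

noncomputable section

namespace Pool.Agent.H80.EK

open Polynomial Finset NumberField

theorem SI_lower (d : ℕ) (hd : 1 ≤ d) : ∃ c : ℝ, 0 < c ∧ ∀ (K : Type) [Field K] [NumberField K],
    Module.finrank ℚ K = d → ∀ B : ℕ, 1 ≤ B → ∀ z : ℝ, 1 ≤ z →
    c * Real.exp (MM K B z) ≤ SI K B 0 z := by
  sorry

end Pool.Agent.H80.EK
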