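import Pool.Agent.H80.EK.Basic

set_option autoImplicit false

/-! # STAR: the real variable bootstrap -/

noncomputable section

namespace Pool.Agent.H80.EK

open Polynomial Finset NumberField

theorem star (d k : ℕ) (hd : 1 ≤ d) (hk : 1 ≤ k) (K0 c1 C1 c2 Cm : ℝ) (hK0 : 1 ≤ K0)
    (hc1 : 0 < c1) (hC1 : 0 < C1) (hc2 : 0 < c2) (hCm : 0 ≤ Cm) : ∃ C : ℝ, 0 ≤ C ∧
    ∀ (s M : ℝ → ℝ) (A Λ : ℝ), (k : ℝ) ≤ A → 0 ≤ Λ → Monotone s → Monotone M →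
    (∀ u, 0 ≤ s u) →
    (∀ u, 1 ≤ u → c1 * Real.exp (M u) ≤ s u ∧ s u ≤ C1 * Real.exp (M u)) →
    (∀ a b h, A ≤ a → A ≤ b → 0 ≤ h → s (a + h) - s a ≤ 4 * (s (b + h + 1) - s (b - 1))) →
    (∀ u v, 1 ≤ u → u ≤ v → M v - M u ≤ d * (Real.log (v / u) + Cm)) →
    |M (A / k) - Real.log (A / k)| ≤ Λ →
    c2 * s (A / k) ≤ s (K0 * A) - s A →
    ∀ u, A / k ≤ u → |M u - Real.log u| ≤ Λ + C := by
  sorry

end Pool.Agent.H80.EK
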