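import Pool.Agent.H80.EK.Dual
import Pool.Agent.H80.EK.Prm
import Pool.Agent.H80.EK.SUp
import Pool.Agent.H80.EK.SLow
import Pool.Agent.H80.EK.Prod
import Pool.Agent.H80.EK.Star
import Pool.Agent.H80.EK.Fld
import Pool.Agent.H80.EK.Dens

set_option autoImplicit false

/-! # NFMAIN: the sum of rho(p)/p for an irreducible polynomial -/

noncomputable section

namespace Pool.Agent.H80.EK

open Polynomial Finset NumberField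

theorem nf_main (d : ℕ) (hd : 1 ≤ d) (K1 c Λ : ℝ) (hK1 : 1 ≤ K1) (hc : 0 < c) (hc1 : c ≤ 1)
    (hΛ : 0 ≤ Λ) : ∃ C R0 : ℝ, 0 < C ∧ 2 ≤ R0 ∧ ∀ (R : ℝ) (G : ℤ[X]) (m : ℕ), R0 ≤ R →
    G.natDegree = d → Irreducible (G.map (Int.castRingHom ℚ)) →
    (∀ i, |(G.coeff i : ℝ)| ≤ R ^ K1) → 1 ≤ m → (m : ℝ) ≤ R ^ K1 →
    G.leadingCoeff.natAbs ∣ m →
    (∀ x : ℝ, 2 ≤ x → x ≤ R ^ c → |∑ p ∈ PR m x, ((rho G p : ℝ) - 1) / p| ≤ Λ) →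
    ∀ y : ℝ, 2 ≤ y → |∑ p ∈ PR m y, (rho G p : ℝ) / p - Real.log (Real.log y)| ≤
      C * (1 + l3 R) := by
  sorry

end Pool.Agent.H80.EK
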