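import Pool.Agent.H80.EK.Basic

set_option autoImplicit false

/-! # QINF: the denominator tends to infinity -/

noncomputable section

namespace Pool.Agent.H80.EK

open Polynomial Finset

theorem Q_large (f : ℝ[X]) (hf : ∃ j, 1 ≤ j ∧ Irrational (f.coeff j)) (B : ℕ) :
    ∃ N0 : ℕ, ∀ N : ℕ, N0 ≤ N → ∀ (Δ : ℝ) (Q : ℕ) (g : ℤ[X]), 1 ≤ Δ → Δ ^ 8 ≤ N →
      Major f N Δ Q g → B ≤ Q := by
  sorry

end Pool.Agent.H80.EK
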