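import Pool.Agent.H80.EK.Small
import Pool.Agent.H80.EK.Cells
import Pool.Agent.H80.EK.Irr
import Pool.Agent.H80.EK.NFMain
import Pool.Agent.H80.EK.Qinf
import Pool.Agent.H80.EK.Par

set_option autoImplicit false

/-! # GOODC: the good cells -/

noncomputable section

namespace Pool.Agent.H80.EK

open Polynomial Finset

open Classical in
/-- For all large `N` in the major arc case, all but a proportion `ε` of `[1, N]` is covered by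
disjoint cells `{Q (t ℓ + s) + c + 1 : s < ℓ}` on which `r(n)` is a constant `r` with
`∑_{p ≤ y} rho(g - r, p)/p = log log y + O(1 + l3 N)`. -/
theorem good_cells (f : ℝ[X]) (hf : ∃ j, 1 ≤ j ∧ Irrational (f.coeff j)) (ε : ℝ) (hε : 0 < ε) :
    ∃ (Cε : ℝ) (N0 : ℕ), 0 < Cε ∧ ∀ N : ℕ, N0 ≤ N → ∀ (Q : ℕ) (g : ℤ[X]),
    Major f N (Del N) Q g → ∃ (ℓ T : ℕ) (F : Finset (ℕ × ℕ)),
      (N : ℝ) ^ (1 / 2 : ℝ) ≤ ℓ ∧ T * Q * ℓ ≤ N ∧ F ⊆ range T ×ˢ range Q ∧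
      (N : ℝ) - F.card * ℓ ≤ ε * N ∧
      ∀ x ∈ F, ∃ r : ℤ, (∀ s < ℓ, rr f Q g (Q * (x.1 * ℓ + s) + x.2 + 1) = r) ∧
        ∀ y : ℝ, 2 ≤ y → |∑ p ∈ PR (mg Q g) y, (rho (gr g r) p : ℝ) / p -
          Real.log (Real.log y)| ≤ Cε * (1 + l3 N) := by
  sorry

end Pool.Agent.H80.EK
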