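import Pool.Agent.H80.EK.NFDefs

set_option autoImplicit false

/-! # IDX: the index of the coordinate lattice of an ideal -/

noncomputable section

namespace Pool.Agent.H80.EK

open Polynomial Finset NumberField

variable {K : Type} [Field K] [NumberField K]

theorem lat_index {d : ℕ} {θ : 𝓞 K} {f : ℤ[X]} {B : ℕ} {R : ℝ} (h : NFD K d θ f B R)
    (I : Ideal (𝓞 K)) (hI : (Ideal.absNorm I).Coprime B) :
    (lat θ d I).index = Ideal.absNorm I := by
  sorry

theorem co_injective {d : ℕ} {θ : 𝓞 K} {f : ℤ[X]} {B : ℕ} {R : ℝ} (h : NFD K d θ f B R) :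
    Function.Injective (co θ d) := by
  sorry

end Pool.Agent.H80.EK
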