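import Pool.Agent.H80.EK.NFDefs

set_option autoImplicit false

/-! # LAT: counting points of a lattice coset in a box -/

noncomputable section

namespace Pool.Agent.H80.EK

open Polynomial Finset NumberField

open Classical in
theorem lattice_count (d : ℕ) (hd : 1 ≤ d) (Λ : AddSubgroup (Fin d → ℤ))
    (v : Fin d → Fin d → ℤ) (hv : LinearIndependent ℤ v) (hvΛ : ∀ i, v i ∈ Λ) (L : ℕ)
    (hL : ∀ i j, |v i j| ≤ L) (t c : Fin d → ℤ) (Y : ℕ) :
    ((box d c Y).filter (fun w => w - t ∈ Λ)).card * Λ.index ≤ (Y + 2 * d * L) ^ d ∧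
    (Y - 2 * d * L) ^ d ≤ ((box d c Y).filter (fun w => w - t ∈ Λ)).card * Λ.index := by
  sorry

end Pool.Agent.H80.EK
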