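import Pool.Agent.H80.EK.Basic

set_option autoImplicit false

/-! # Number fields: definitions -/

noncomputable section

namespace Pool.Agent.H80.EK

open Polynomial Finset NumberField

section Box

/-- the box `∏ [c_i, c_i + Y)` in `ℤ^d` -/
def box (d : ℕ) (c : Fin d → ℤ) (Y : ℕ) : Finset (Fin d → ℤ) :=
  Fintype.piFinset (fun i => Ico (c i) (c i + (Y : ℤ)))

end Box

variable {K : Type} [Field K] [NumberField K]

/-- `co θ d w = ∑ w_i θ^i` -/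
def co (θ : 𝓞 K) (d : ℕ) : (Fin d → ℤ) →+ 𝓞 K where
  toFun w := ∑ i, (w i : 𝓞 K) * θ ^ (i : ℕ)
  map_zero' := by simp
  map_add' x y := by simp [add_mul, Finset.sum_add_distrib]

omit [NumberField K] in
lemma co_apply (θ : 𝓞 K) (d : ℕ) (w : Fin d → ℤ) :
    co θ d w = ∑ i, (w i : 𝓞 K) * θ ^ (i : ℕ) := rfl

/-- the lattice of coordinate vectors of elements of `I` -/
def lat (θ : 𝓞 K) (d : ℕ) (I : Ideal (𝓞 K)) : AddSubgroup (Fin d → ℤ) :=
  AddSubgroup.comap (co θ d) (Submodule.toAddSubgroup I)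

omit [NumberField K] in
lemma mem_lat (θ : 𝓞 K) (d : ℕ) (I : Ideal (𝓞 K)) (w : Fin d → ℤ) :
    w ∈ lat θ d I ↔ co θ d w ∈ I := Iff.rfl

variable (K) in
/-- Number field data: `K` has degree `d`, `f` is the monic minimal polynomial of `θ`, with
coefficients at most `R`, and `B ≤ R` multiplies the ring of integers into `ℤ[θ]`. -/
structure NFD (d : ℕ) (θ : 𝓞 K) (f : ℤ[X]) (B : ℕ) (R : ℝ) : Prop where
  hd : 1 ≤ d
  hR : 2 ≤ R
  monic : f.Monic
  deg : f.natDegree = d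
  root : aeval θ f = 0
  irr : Irreducible (f.map (Int.castRingHom ℚ))
  rank : Module.finrank ℚ K = d
  coef : ∀ i, |(f.coeff i : ℝ)| ≤ R
  hB : 1 ≤ B
  hBR : (B : ℝ) ≤ R
  cond : ∀ x : 𝓞 K, ∃ w : Fin d → ℤ, (B : 𝓞 K) * x = co θ d w

variable (K) in
/-- nonzero ideals with norm in `(x, y]`, coprime to `B` -/
def idsS (B : ℕ) (x y : ℝ) : Set (Ideal (𝓞 K)) :=
  {I | I ≠ ⊥ ∧ (Ideal.absNorm I).Coprime B ∧ x < Ideal.absNorm I ∧ (Ideal.absNorm I : ℝ) ≤ y}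

variable (K) in
lemma idsS_finite (B : ℕ) (x y : ℝ) : (idsS K B x y).Finite := by
  refine (Ideal.finite_setOfPred_absNorm_le (S := 𝓞 K) ⌊y⌋₊).subset ?_
  rintro I ⟨_, _, _, h⟩
  exact Nat.le_floor h

variable (K) in
/-- the finite set of these ideals -/
def ids (B : ℕ) (x y : ℝ) : Finset (Ideal (𝓞 K)) := (idsS_finite K B x y).toFinset

variable (K) in
lemma mem_ids {B : ℕ} {x y : ℝ} {I : Ideal (𝓞 K)} : I ∈ ids K B x y ↔
    I ≠ ⊥ ∧ (Ideal.absNorm I).Coprime B ∧ x < Ideal.absNorm I ∧ (Ideal.absNorm I : ℝ) ≤ y := by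
  unfold ids
  rw [Set.Finite.mem_toFinset]
  exact Iff.rfl

variable (K) in
/-- the sum of `1/N(I)` over these ideals -/
def SI (B : ℕ) (x y : ℝ) : ℝ := ∑ I ∈ ids K B x y, 1 / (Ideal.absNorm I : ℝ)

variable (K) in
/-- the number of ideals of norm `p` -/
def np (p : ℕ) : ℕ := {I : Ideal (𝓞 K) | Ideal.absNorm I = p}.ncard

variable (K) in
/-- `∑_{p ≤ x, p ∤ B} np(p)/p` -/
def MM (B : ℕ) (x : ℝ) : ℝ := ∑ p ∈ PR B x, (np K p : ℝ) / p

end Pool.Agent.H80.EK
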