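import Pool.Agent.H80.EK.NFDefs

set_option autoImplicit false

/-! # NPB: primes above p -/

noncomputable section

namespace Pool.Agent.H80.EK

open Polynomial Finset NumberField

variable (K : Type) [Field K] [NumberField K]

theorem np_le (p : ℕ) (hp : p.Prime) : np K p ≤ Module.finrank ℚ K := by
  sorry

/-- at most `[K:ℚ]` prime ideals contain `p` -/
theorem card_primes_above (p : ℕ) (hp : p.Prime) :
    {I : Ideal (𝓞 K) | I.IsPrime ∧ (p : 𝓞 K) ∈ I}.Finite ∧
    {I : Ideal (𝓞 K) | I.IsPrime ∧ (p : 𝓞 K) ∈ I}.ncard ≤ Module.finrank ℚ K := by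
  sorry

/-- a nonzero prime ideal contains exactly one prime number `p`, and its norm is a power of it -/
theorem exists_prime_above (I : Ideal (𝓞 K)) (hI : I.IsPrime) (hI0 : I ≠ ⊥) :
    ∃ p k : ℕ, p.Prime ∧ 1 ≤ k ∧ (p : 𝓞 K) ∈ I ∧ Ideal.absNorm I = p ^ k := by
  sorry

end Pool.Agent.H80.EK
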