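import Pool.Agent.H80.EK.Basic

set_option autoImplicit false

/-! # NTAME: critical values -/

noncomputable section

namespace Pool.Agent.H80.EK

open Polynomial Finset

/-- `r` is tame at level `ω`: all complex roots `θ` of `g - r` satisfy
`|g'(θ)| ≥ ω Q (1+|θ|)^(d-1)` -/
def Tame (g : ℤ[X]) (Q : ℕ) (ω : ℝ) (r : ℤ) : Prop :=
  ∀ θ : ℂ, aeval θ g = (r : ℂ) →
    ω * Q * (1 + ‖θ‖) ^ (g.natDegree - 1) ≤ ‖aeval θ (derivative g)‖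

open Classical in
theorem not_tame_count (d : ℕ) (hd : 2 ≤ d) (c0 C0 : ℝ) (hc0 : 0 < c0) (hC0 : 0 < C0) :
    ∃ C : ℝ, 0 < C ∧ ∀ (Q : ℕ) (g : ℤ[X]) (ω : ℝ) (r0 : ℤ), 1 ≤ Q → g.natDegree = d →
    g.coeff 0 = 0 → (∀ j, |(g.coeff j : ℝ)| ≤ C0 * Q) → c0 * Q ≤ |(g.leadingCoeff : ℝ)| →
    0 < ω → ω ≤ 1 →
    (((Ico r0 (r0 + Q)).filter (fun r : ℤ => ¬ Tame g Q ω r)).card : ℝ) ≤
      C * (Q * ω ^ (1 / ((d : ℝ) - 1)) + 1) := by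
  sorry

end Pool.Agent.H80.EK
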