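import Pool.Agent.H80.EK.Basic

set_option autoImplicit false

/-! # RECOV: recovery of the lower coefficients -/

noncomputable section

namespace Pool.Agent.H80.EK

open Polynomial Finset

theorem weyl_recover (d : ℕ) : ∃ C0 : ℕ, 1 ≤ C0 ∧ ∀ P : ℝ[X], P.natDegree ≤ d →
    ∀ (N N' q q1 : ℕ) (c : ℤ) (V U : ℝ), 1 ≤ N → 1 ≤ N' → 1 ≤ q → |(c : ℝ)| ≤ 2 * N →
    1 ≤ V → (N : ℝ) ≤ V * N' → 0 ≤ U →
    (∀ i ∈ Icc 1 d, nn (q1 * (P.comp (C (c : ℝ) + C (q : ℝ) * X)).coeff i) ≤ U / (N' : ℝ) ^ i) →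
    ∀ i ∈ Icc 1 d, nn (((q1 * q ^ d : ℕ) : ℝ) * P.coeff i) ≤
      C0 * (q : ℝ) ^ d * V ^ d * U / (N : ℝ) ^ i := by
  sorry

end Pool.Agent.H80.EK
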