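import Pool.Agent.H80.EK.Basic

set_option autoImplicit false

/-! # RECUR: strongly recurrent linear phases -/

noncomputable section

namespace Pool.Agent.H80.EK

open Polynomial Finset

theorem recurrence (β : ℝ) (N : ℕ) (hN : 1 ≤ N) (K ε : ℝ) (hK : 1 ≤ K) (hε : 0 < ε)
    (hε2 : 16 * K * ε ≤ 1) (hbig : 32 * K ^ 2 ≤ N)
    (h : (N : ℝ) / K ≤ (((Icc 1 N).filter (fun h : ℕ => nn (h * β) ≤ ε)).card : ℝ)) :
    ∃ q : ℕ, 1 ≤ q ∧ (q : ℝ) ≤ 4 * K ∧ nn (q * β) ≤ 32 * K ^ 2 * ε / N := by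
  sorry

end Pool.Agent.H80.EK
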