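import Pool.Agent.H80.EK.Ntame

set_option autoImplicit false

/-! # REDU: reducible values of r -/

noncomputable section

namespace Pool.Agent.H80.EK

open Polynomial Finset

lemma redu_upper (C0 : ℝ) (Q : ℕ) (g : ℤ[X])
    (hc : ∀ j, |(g.coeff j : ℝ)| ≤ C0 * Q) (n : ℕ) (θ : ℂ) :
    ‖∑ j ∈ range n, g.coeff j • θ ^ j‖ ≤ ∑ j ∈ range n, C0 * Q * ‖θ‖ ^ j := by
  refine (norm_sum_le _ _).trans (sum_le_sum ?_)
  intro j _
  rw [zsmul_eq_mul, norm_mul, norm_pow, Complex.norm_intCast]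
  exact mul_le_mul_of_nonneg_right (hc j) (by positivity)

lemma redu_size (d : ℕ) (hd : 1 ≤ d) (c0 C0 : ℝ) (hc0 : 0 < c0) (hC0 : 0 < C0) :
    ∃ C2 : ℝ, 1 ≤ C2 ∧ ∀ (Q : ℕ) (g : ℤ[X]), 1 ≤ Q → g.natDegree = d →
    (∀ j, |(g.coeff j : ℝ)| ≤ C0 * Q) → c0 * Q ≤ |(g.leadingCoeff : ℝ)| →
    ∀ (r r' : ℤ) (θ θ' : ℂ), |(r : ℝ) - r'| ≤ Q → aeval θ g = (r : ℂ) →
      aeval θ' g = (r' : ℂ) → 1 + ‖θ'‖ ≤ C2 * (1 + ‖θ‖) := by
  set K : ℝ := (1 + C0 * (d + 1) + C0 * d) / c0 + 1 with hK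
  have hK1 : 1 ≤ K := by
    rw [hK]
    have : 0 ≤ (1 + C0 * (d + 1) + C0 * d) / c0 := by positivity
    linarith
  refine ⟨K + 1, by linarith, ?_⟩
  intro Q g hQ hgd hcf hlead r r' θ θ' hrr hθ hθ'
  have hQ0 : (0 : ℝ) < Q := by exact_mod_cast (by omega : 0 < Q)
  set x := ‖θ'‖ with hx
  set y := ‖θ‖ with hy
  have hx0 : 0 ≤ x := norm_nonneg _
  have hy0 : 0 ≤ y := norm_nonneg _
  -- it suffices x ≤ K (1+y)
  suffices hmain : x ≤ K * (1 + y) by nlinarith
  by_contra hcon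
  push Not at hcon
  have hx1 : 1 + y < x := by nlinarith
  -- upper bound for r
  have h1 : |(r : ℝ)| ≤ C0 * Q * (d + 1) * (1 + y) ^ d := by
    have e1 : |(r : ℝ)| = ‖aeval θ g‖ := by
      rw [hθ, Complex.norm_intCast]
    rw [e1, aeval_eq_sum_range, hgd]
    refine (redu_upper C0 Q g hcf (d + 1) θ).trans ?_
    calc ∑ j ∈ range (d + 1), C0 * Q * ‖θ‖ ^ j
        ≤ ∑ j ∈ range (d + 1), C0 * Q * (1 + y) ^ d := by
          apply sum_le_sum
          intro j hj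
          apply mul_le_mul_of_nonneg_left _ (by positivity)
          calc ‖θ‖ ^ j ≤ (1 + y) ^ j := by
                apply pow_le_pow_left₀ (norm_nonneg _)
                linarith
            _ ≤ (1 + y) ^ d := by
                apply pow_le_pow_right₀ (by linarith)
                have := mem_range.mp hj
                omega
      _ = C0 * Q * (d + 1) * (1 + y) ^ d := by
          rw [sum_const, card_range, nsmul_eq_mul]
          push_cast
          ring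
  -- lower bound
  have h2 : c0 * Q * x ^ d ≤ |(r' : ℝ)| + C0 * Q * d * x ^ (d - 1) := by
    have e1 : |(r' : ℝ)| = ‖aeval θ' g‖ := by
      rw [hθ', Complex.norm_intCast]
    have e2 : aeval θ' g = ∑ j ∈ range d, g.coeff j • θ' ^ j + g.coeff d • θ' ^ d := by
      rw [aeval_eq_sum_range, hgd, sum_range_succ]
    have e3 : ‖g.coeff d • θ' ^ d‖ ≤ ‖aeval θ' g‖ + ‖∑ j ∈ range d, g.coeff j • θ' ^ j‖ := by
      have : g.coeff d • θ' ^ d = aeval θ' g - ∑ j ∈ range d, g.coeff j • θ' ^ j := by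
        rw [e2]; ring
      rw [this]
      exact norm_sub_le _ _
    have e4 : c0 * Q * x ^ d ≤ ‖g.coeff d • θ' ^ d‖ := by
      rw [zsmul_eq_mul, norm_mul, norm_pow, Complex.norm_intCast]
      apply mul_le_mul_of_nonneg_right _ (by positivity)
      have : g.coeff d = g.leadingCoeff := by rw [← hgd]; rfl
      rw [this]
      exact hlead
    have e5 : ‖∑ j ∈ range d, g.coeff j • θ' ^ j‖ ≤ C0 * Q * d * x ^ (d - 1) := by
      refine (redu_upper C0 Q g hcf d θ').trans ?_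
      calc ∑ j ∈ range d, C0 * Q * ‖θ'‖ ^ j
          ≤ ∑ j ∈ range d, C0 * Q * x ^ (d - 1) := by
            apply sum_le_sum
            intro j hj
            apply mul_le_mul_of_nonneg_left _ (by positivity)
            apply pow_le_pow_right₀ (by linarith)
            have := mem_range.mp hj
            omega
        _ = C0 * Q * d * x ^ (d - 1) := by
            rw [sum_const, card_range, nsmul_eq_mul]
            ring
    rw [e1]
    linarith
  have h3 : |(r' : ℝ)| ≤ |(r : ℝ)| + Q := by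
    have : (r' : ℝ) = r - (r - r') := by ring
    rw [this]
    refine (abs_sub _ _).trans ?_
    linarith
  have h4 : c0 * x ^ d ≤ 1 + C0 * (d + 1) * (1 + y) ^ d + C0 * d * x ^ (d - 1) := by
    have : Q * (c0 * x ^ d) ≤ Q * (1 + C0 * (d + 1) * (1 + y) ^ d + C0 * d * x ^ (d - 1)) := by
      nlinarith
    exact le_of_mul_le_mul_left this hQ0
  obtain ⟨m, rfl⟩ : ∃ m, d = m + 1 := ⟨d - 1, by omega⟩
  simp only [Nat.add_sub_cancel] at h4
  have h5 : (1 + y) ^ m ≤ x ^ m := pow_le_pow_left₀ (by linarith) hx1.le m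
  have h6 : 1 ≤ (1 + y) ^ m := one_le_pow₀ (by linarith)
  have h7 : c0 * x ^ (m + 1) = c0 * x * x ^ m := by ring
  have h8 : (1 + C0 * ((m + 1 : ℕ) + 1) + C0 * (m + 1 : ℕ)) * (1 + y) < c0 * x := by
    have : c0 * (K * (1 + y)) < c0 * x := mul_lt_mul_of_pos_left hcon hc0
    have e : c0 * K = (1 + C0 * ((m + 1 : ℕ) + 1) + C0 * (m + 1 : ℕ)) + c0 := by
      rw [hK]; field_simp
    nlinarith
  have hxpos : 0 < x := by linarith
  have hxm : 0 < x ^ m := by positivity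
  have h9 : (1 + C0 * ((m + 1 : ℕ) + 1) + C0 * (m + 1 : ℕ)) * (1 + y) * x ^ m
      < c0 * x * x ^ m := mul_lt_mul_of_pos_right h8 hxm
  have h10 : 1 ≤ (1 + y) * x ^ m := by nlinarith
  have h11 : (1 + y) ^ (m + 1) ≤ (1 + y) * x ^ m := by
    rw [pow_succ]
    nlinarith
  have h12 : x ^ m ≤ (1 + y) * x ^ m := by nlinarith
  have h13 : C0 * ((m + 1 : ℕ) + 1) * (1 + y) ^ (m + 1)
      ≤ C0 * ((m + 1 : ℕ) + 1) * ((1 + y) * x ^ m) :=
    mul_le_mul_of_nonneg_left h11 (by positivity)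
  have h14 : C0 * (m + 1 : ℕ) * x ^ m ≤ C0 * (m + 1 : ℕ) * ((1 + y) * x ^ m) :=
    mul_le_mul_of_nonneg_left h12 (by positivity)
  rw [h7] at h4
  nlinarith

/-- roots as a function on `Fin n` -/
lemma redu_roots (P : ℂ[X]) (n : ℕ) (h : P.natDegree = n) :
    ∃ θ : Fin n → ℂ, P = C P.leadingCoeff * ∏ i, (X - C (θ i)) := by
  obtain ⟨l, hl⟩ := Quot.exists_rep P.roots
  have hs : P.Splits := IsAlgClosed.splits P
  have h1 : P.roots.card = n := by rw [← hs.natDegree_eq_card_roots, h]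
  have h2 : l.length = n := by
    rw [← h1, ← hl]
    rfl
  subst h2
  refine ⟨fun i => l.get i, ?_⟩
  have h3 := hs.eq_prod_roots
  have h4 : (P.roots.map (fun a => X - C a)).prod = ∏ i, (X - C (l.get i)) := by
    rw [← hl]
    show ((l : Multiset ℂ).map (fun a => X - C a)).prod = _
    rw [Multiset.map_coe, Multiset.prod_coe, ← List.prod_ofFn]
    congr 1
    conv_lhs => rw [← List.ofFn_get l]
    rw [List.map_ofFn]
    rfl
  rw [← h4]
  exact h3


/-- integer factorisation -/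
lemma redu_factor (d : ℕ) (hd : 2 ≤ d) (G : ℤ[X]) (hG : G.natDegree = d)
    (h : ¬ Irreducible (G.map (Int.castRingHom ℚ))) :
    ∃ F1 F2 : ℤ[X], G = F1 * F2 ∧ 1 ≤ F1.natDegree ∧ 1 ≤ F2.natDegree := by
  have hG0 : G ≠ 0 := by
    rintro rfl
    simp at hG
    omega
  have hc : G = C G.content * G.primPart := G.eq_C_content_mul_primPart
  have hc0 : G.content ≠ 0 := by
    rw [Ne, content_eq_zero_iff]
    exact hG0
  have hprim : G.primPart.IsPrimitive := G.isPrimitive_primPart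
  have hdeg : G.primPart.natDegree = d := by rw [natDegree_primPart, hG]
  have h1 : ¬ Irreducible G.primPart := by
    intro hirr
    apply h
    rw [IsPrimitive.Int.irreducible_iff_irreducible_map_cast hprim] at hirr
    have h2 : G.map (Int.castRingHom ℚ)
        = C (G.content : ℚ) * G.primPart.map (Int.castRingHom ℚ) := by
      conv_lhs => rw [hc]
      rw [Polynomial.map_mul, Polynomial.map_C]
      rfl
    rw [h2]
    have hu : IsUnit (C (G.content : ℚ)) := by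
      apply IsUnit.map
      rw [isUnit_iff_ne_zero]
      exact_mod_cast hc0
    exact (irreducible_isUnit_mul hu).mpr hirr
  have hnu : ¬ IsUnit G.primPart := by
    intro hu
    have := natDegree_eq_zero_of_isUnit hu
    omega
  rw [irreducible_iff] at h1
  push Not at h1
  obtain ⟨A, B, hAB, hA, hB⟩ := h1 hnu
  have key : ∀ A B : ℤ[X], G.primPart = A * B → ¬ IsUnit A → 1 ≤ A.natDegree := by
    intro A B hAB hA
    by_contra hcon
    have h0 : A.natDegree = 0 := by omega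
    rw [natDegree_eq_zero] at h0
    obtain ⟨a, rfl⟩ := h0
    apply hA
    apply IsUnit.map
    exact hprim a ⟨B, hAB⟩
  refine ⟨C G.content * A, B, ?_, ?_, ?_⟩
  · rw [mul_assoc, ← hAB]
    exact hc
  · rw [natDegree_C_mul hc0]
    exact key A B hAB hA
  · exact key B A (by rw [hAB, mul_comm]) hB

lemma redu_data (d : ℕ) (hd : 2 ≤ d) (G : ℤ[X]) (hG : G.natDegree = d)
    (h : ¬ Irreducible (G.map (Int.castRingHom ℚ))) :
    ∃ F : ℤ[X], F ∣ G ∧ 1 ≤ F.natDegree ∧ F.natDegree < d ∧ 0 < F.leadingCoeff ∧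
      F.leadingCoeff.natAbs ∣ G.leadingCoeff.natAbs ∧
      F.leadingCoeff.natAbs ^ 2 ≤ G.leadingCoeff.natAbs := by
  have hG0 : G ≠ 0 := by
    rintro rfl
    simp at hG
    omega
  -- it is enough to find such an F with nonzero leading coefficient
  suffices hs : ∃ F : ℤ[X], F ∣ G ∧ 1 ≤ F.natDegree ∧ F.natDegree < d ∧
      F.leadingCoeff.natAbs ∣ G.leadingCoeff.natAbs ∧
      F.leadingCoeff.natAbs ^ 2 ≤ G.leadingCoeff.natAbs by
    obtain ⟨F, h1, h2, h3, h4, h5⟩ := hs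
    have hF0 : F ≠ 0 := by
      rintro rfl
      simp at h2
    rcases lt_or_gt_of_ne (leadingCoeff_ne_zero.mpr hF0) with hneg | hpos
    · refine ⟨-F, (neg_dvd).mpr h1, ?_, ?_, ?_, ?_, ?_⟩
      · rwa [natDegree_neg]
      · rwa [natDegree_neg]
      · rw [leadingCoeff_neg]; omega
      · rwa [leadingCoeff_neg, Int.natAbs_neg]
      · rwa [leadingCoeff_neg, Int.natAbs_neg]
    · exact ⟨F, h1, h2, h3, hpos, h4, h5⟩
  obtain ⟨F1, F2, hF, hd1, hd2⟩ := redu_factor d hd G hG h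
  have hF10 : F1 ≠ 0 := by
    rintro rfl
    simp at hd1
  have hF20 : F2 ≠ 0 := by
    rintro rfl
    simp at hd2
  have hdeg : F1.natDegree + F2.natDegree = d := by
    rw [← natDegree_mul hF10 hF20, ← hF, hG]
  have hlc : G.leadingCoeff.natAbs = F1.leadingCoeff.natAbs * F2.leadingCoeff.natAbs := by
    rw [hF, leadingCoeff_mul, Int.natAbs_mul]
  rcases le_total F1.leadingCoeff.natAbs F2.leadingCoeff.natAbs with hle | hle
  · refine ⟨F1, ⟨F2, hF⟩, hd1, by omega, ⟨_, hlc⟩, ?_⟩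
    rw [hlc, sq]
    exact Nat.mul_le_mul_left _ hle
  · refine ⟨F2, ⟨F1, by rw [hF, mul_comm]⟩, hd2, by omega, ⟨F1.leadingCoeff.natAbs, ?_⟩, ?_⟩
    · rw [hlc, mul_comm]
    · rw [hlc, sq]
      exact Nat.mul_le_mul_right _ hle

lemma redu_prod_sub (n : ℕ) (M : ℝ) (hM : 1 ≤ M) (a b : Fin n → ℂ) (ha : ∀ i, ‖a i‖ ≤ M)
    (hb : ∀ i, ‖b i‖ ≤ M) : ‖∏ i, a i - ∏ i, b i‖ ≤ M ^ n * ∑ i, ‖a i - b i‖ := by
  induction n with
  | zero => simp
  | succ n ih =>
    rw [Fin.prod_univ_succ, Fin.prod_univ_succ, Fin.sum_univ_succ]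
    have ih' := ih (fun i => a i.succ) (fun i => b i.succ) (fun i => ha _) (fun i => hb _)
    have e1 : a 0 * ∏ i : Fin n, a i.succ - b 0 * ∏ i : Fin n, b i.succ
        = (a 0 - b 0) * ∏ i : Fin n, a i.succ
          + b 0 * (∏ i : Fin n, a i.succ - ∏ i : Fin n, b i.succ) := by ring
    rw [e1]
    have h1 : ‖∏ i : Fin n, a i.succ‖ ≤ M ^ n := by
      rw [norm_prod]
      calc ∏ i : Fin n, ‖a i.succ‖ ≤ ∏ _i : Fin n, M :=
            prod_le_prod (fun i _ => norm_nonneg _) (fun i _ => ha _)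
        _ = M ^ n := by simp
    have hMn : M ^ n ≤ M ^ (n + 1) := pow_le_pow_right₀ hM (by omega)
    have hs : 0 ≤ ∑ i : Fin n, ‖a i.succ - b i.succ‖ := sum_nonneg (fun i _ => norm_nonneg _)
    calc ‖(a 0 - b 0) * ∏ i : Fin n, a i.succ
          + b 0 * (∏ i : Fin n, a i.succ - ∏ i : Fin n, b i.succ)‖
        ≤ ‖a 0 - b 0‖ * ‖∏ i : Fin n, a i.succ‖
          + ‖b 0‖ * ‖∏ i : Fin n, a i.succ - ∏ i : Fin n, b i.succ‖ := by
          refine (norm_add_le _ _).trans ?_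
          rw [norm_mul, norm_mul]
      _ ≤ ‖a 0 - b 0‖ * M ^ (n + 1) + M * (M ^ n * ∑ i : Fin n, ‖a i.succ - b i.succ‖) := by
          apply add_le_add
          · exact mul_le_mul_of_nonneg_left (h1.trans hMn) (norm_nonneg _)
          · exact mul_le_mul (hb 0) ih' (norm_nonneg _) (by linarith)
      _ = M ^ (n + 1) * (‖a 0 - b 0‖ + ∑ i : Fin n, ‖a i.succ - b i.succ‖) := by ring


lemma redu_deriv (n : ℕ) (a : ℂ) (θ : Fin n → ℂ) (P : ℂ[X])
    (hP : P = C a * ∏ i, (X - C (θ i))) (i : Fin n) :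
    (derivative P).eval (θ i) = a * ∏ j ∈ univ.erase i, (θ i - θ j) := by
  have h1 : P = (X - C (θ i)) * (C a * ∏ j ∈ univ.erase i, (X - C (θ j))) := by
    rw [hP, ← mul_prod_erase univ (fun j => X - C (θ j)) (mem_univ i)]
    ring
  rw [h1, derivative_mul, eval_add, eval_mul, eval_mul]
  simp [eval_prod]

lemma redu_close (n : ℕ) (hn : 1 ≤ n) (a : ℂ) (θ : Fin n → ℂ) (P : ℂ[X])
    (hP : P = C a * ∏ i, (X - C (θ i))) (t : ℂ) :
    ∃ i, ‖t - θ i‖ * ‖(derivative P).eval (θ i)‖ ≤ 2 ^ (n - 1) * ‖P.eval t‖ := by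
  have : Nonempty (Fin n) := ⟨⟨0, by omega⟩⟩
  obtain ⟨i, hi⟩ := Finite.exists_min (fun i => ‖t - θ i‖)
  refine ⟨i, ?_⟩
  rw [redu_deriv n a θ P hP i]
  have h1 : P.eval t = a * ((t - θ i) * ∏ j ∈ univ.erase i, (t - θ j)) := by
    rw [hP, ← mul_prod_erase univ (fun j => X - C (θ j)) (mem_univ i)]
    simp [eval_prod]
  rw [h1, norm_mul, norm_mul, norm_mul, norm_prod, norm_prod]
  have h2 : ∏ j ∈ univ.erase i, ‖θ i - θ j‖
      ≤ 2 ^ (n - 1) * ∏ j ∈ univ.erase i, ‖t - θ j‖ := by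
    calc ∏ j ∈ univ.erase i, ‖θ i - θ j‖
        ≤ ∏ j ∈ univ.erase i, (2 * ‖t - θ j‖) := by
          apply prod_le_prod (fun j _ => norm_nonneg _)
          intro j _
          have e1 : θ i - θ j = (t - θ j) - (t - θ i) := by ring
          rw [e1]
          refine (norm_sub_le _ _).trans ?_
          have := hi j
          linarith
      _ = 2 ^ (n - 1) * ∏ j ∈ univ.erase i, ‖t - θ j‖ := by
          rw [prod_mul_distrib, prod_const, card_erase_of_mem (mem_univ i), card_univ,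
            Fintype.card_fin]
  calc ‖t - θ i‖ * (‖a‖ * ∏ j ∈ univ.erase i, ‖θ i - θ j‖)
      ≤ ‖t - θ i‖ * (‖a‖ * (2 ^ (n - 1) * ∏ j ∈ univ.erase i, ‖t - θ j‖)) :=
        mul_le_mul_of_nonneg_left (mul_le_mul_of_nonneg_left h2 (norm_nonneg _)) (norm_nonneg _)
    _ = 2 ^ (n - 1) * (‖a‖ * (‖t - θ i‖ * ∏ j ∈ univ.erase i, ‖t - θ j‖)) := by ring

lemma redu_aeval_gr (g : ℤ[X]) (r : ℤ) (t : ℂ) : aeval t (gr g r) = aeval t g - (r : ℂ) := by
  unfold gr
  rw [map_sub, aeval_C]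
  simp

lemma redu_root_of_dvd (g F : ℤ[X]) (r : ℤ) (h : F ∣ gr g r) (t : ℂ) (ht : aeval t F = 0) :
    aeval t g = (r : ℂ) := by
  obtain ⟨H, hH⟩ := h
  have h1 := redu_aeval_gr g r t
  rw [hH, map_mul, ht, zero_mul] at h1
  exact (sub_eq_zero.mp h1.symm)

lemma redu_eq_of_eval (e : ℕ) (F F' : ℤ[X]) (h1 : F.natDegree ≤ e) (h2 : F'.natDegree ≤ e)
    (h : ∀ m : ℕ, m ≤ e → F.eval (m : ℤ) = F'.eval (m : ℤ)) : F = F' := by
  classical
  apply Polynomial.eq_of_degree_sub_lt_of_eval_finset_eq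
    ((range (e + 1)).image (fun n : ℕ => (n : ℤ)))
  · rw [card_image_of_injective _ Nat.cast_injective, card_range]
    refine lt_of_le_of_lt (degree_sub_le _ _) ?_
    rw [max_lt_iff]
    constructor
    · refine lt_of_le_of_lt degree_le_natDegree ?_
      exact_mod_cast (by omega : F.natDegree < e + 1)
    · refine lt_of_le_of_lt degree_le_natDegree ?_
      exact_mod_cast (by omega : F'.natDegree < e + 1)
  · intro x hx
    rw [mem_image] at hx
    obtain ⟨m, hm, rfl⟩ := hx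
    exact h m (by have := mem_range.mp hm; omega)

lemma redu_fiber (d : ℕ) (hd : 2 ≤ d) (C2 : ℝ) (hC2 : 1 ≤ C2) (Q : ℕ) (hQ : 1 ≤ Q) (g : ℤ[X])
    (hgd : g.natDegree = d) (ω : ℝ) (hω : 0 < ω) (κ : ℝ) (hκ0 : 0 < κ) (hκ : κ ≤ 1)
    (hsize : ∀ (r r' : ℤ) (θ θ' : ℂ), |(r : ℝ) - r'| ≤ Q → aeval θ g = (r : ℂ) →
      aeval θ' g = (r' : ℂ) → 1 + ‖θ'‖ ≤ C2 * (1 + ‖θ‖))
    (b : ℤ) (hb : Tame g Q ω b) (e : ℕ) (he1 : 1 ≤ e) (he : e < d) (u : ℕ)
    (huκ : u * κ * ((d * C2) ^ d * d * 2 ^ d * C2 ^ d) ≤ ω / 2)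
    (S : Finset ℤ) (hS : ∀ r ∈ S, |(r : ℝ) - b| ≤ κ * Q ∧
      ∃ F : ℤ[X], F ∣ gr g r ∧ F.natDegree = e ∧ F.leadingCoeff = (u : ℤ)) :
    S.card ≤ d ^ e := by
  classical
  have hQ0 : (0 : ℝ) < Q := by exact_mod_cast (by omega : 0 < Q)
  have hgr : (gr g b).natDegree = d := by
    unfold gr
    rw [natDegree_sub_C, hgd]
  have hinj : Function.Injective (algebraMap ℤ ℂ) := Int.cast_injective
  obtain ⟨θ, hθ⟩ := redu_roots ((gr g b).map (algebraMap ℤ ℂ)) d
    (by rw [natDegree_map_eq_of_injective hinj, hgr])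
  set P := (gr g b).map (algebraMap ℤ ℂ) with hP
  have hθr : ∀ i, aeval (θ i) g = (b : ℂ) := by
    intro i
    have h1 : P.eval (θ i) = 0 := by
      rw [hθ, eval_mul, eval_prod]
      rw [prod_eq_zero (mem_univ i)]
      · simp
      · simp
    rw [hP, eval_map_algebraMap, redu_aeval_gr] at h1
    exact sub_eq_zero.mp h1
  have hder : ∀ x : ℂ, (derivative P).eval x = aeval x (derivative g) := by
    intro x
    rw [hP, derivative_map, eval_map_algebraMap]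
    unfold gr
    rw [derivative_sub, derivative_C, sub_zero]
  set Y : ℝ := 1 + ‖θ ⟨0, by omega⟩‖ with hY
  have hY1 : 1 ≤ Y := by
    have := norm_nonneg (θ ⟨0, by omega⟩)
    linarith
  have hYi : ∀ i, Y ≤ C2 * (1 + ‖θ i‖) := by
    intro i
    exact hsize b b _ _ (by simp) (hθr i) (hθr _)
  have hdata : ∀ r : ℤ, r ∈ S → ∃ (F : ℤ[X]) (t : Fin e → ℂ) (ι : Fin e → Fin d),
      F ∣ gr g r ∧ F.natDegree = e ∧
      F.map (algebraMap ℤ ℂ) = C (u : ℂ) * ∏ k, (X - C (t k)) ∧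
      (∀ k, aeval (t k) F = 0) ∧
      (∀ k, aeval (t k) g = (r : ℂ)) ∧
      (∀ k, ω * Y ^ (d - 1) * ‖t k - θ (ι k)‖ ≤ C2 ^ (d - 1) * 2 ^ (d - 1) * κ) := by
    intro r hr
    obtain ⟨hrb, F, hF, hFe, hFu⟩ := hS r hr
    obtain ⟨t, ht⟩ := redu_roots (F.map (algebraMap ℤ ℂ)) e
      (by rw [natDegree_map_eq_of_injective hinj, hFe])
    have hlc : (F.map (algebraMap ℤ ℂ)).leadingCoeff = (u : ℂ) := by
      rw [leadingCoeff_map_of_injective hinj, hFu]
      simp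
    rw [hlc] at ht
    have hroot : ∀ k, aeval (t k) F = 0 := by
      intro k
      rw [← eval_map_algebraMap, ht, eval_mul, eval_prod, prod_eq_zero (mem_univ k)]
      · simp
      · simp
    have hroot2 : ∀ k, aeval (t k) g = (r : ℂ) := fun k => redu_root_of_dvd g F r hF _ (hroot k)
    have hcl : ∀ k, ∃ i, ω * Y ^ (d - 1) * ‖t k - θ i‖ ≤ C2 ^ (d - 1) * 2 ^ (d - 1) * κ := by
      intro k
      obtain ⟨i, hi⟩ := redu_close d (by omega) _ θ P hθ (t k)
      refine ⟨i, ?_⟩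
      rw [hder] at hi
      have e1 : P.eval (t k) = ((r - b : ℤ) : ℂ) := by
        rw [hP, eval_map_algebraMap, redu_aeval_gr, hroot2]
        push_cast
        ring
      rw [e1, Complex.norm_intCast] at hi
      push_cast at hi
      have e2 := hb (θ i) (hθr i)
      rw [hgd] at e2
      have e3 : Y ^ (d - 1) ≤ C2 ^ (d - 1) * (1 + ‖θ i‖) ^ (d - 1) := by
        rw [← mul_pow]
        exact pow_le_pow_left₀ (by linarith) (hYi i) _
      have e4 : ω * Q * (1 + ‖θ i‖) ^ (d - 1) * ‖t k - θ i‖ ≤ 2 ^ (d - 1) * (κ * Q) := by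
        calc ω * Q * (1 + ‖θ i‖) ^ (d - 1) * ‖t k - θ i‖
            ≤ ‖aeval (θ i) (derivative g)‖ * ‖t k - θ i‖ :=
              mul_le_mul_of_nonneg_right e2 (norm_nonneg _)
          _ = ‖t k - θ i‖ * ‖aeval (θ i) (derivative g)‖ := mul_comm _ _
          _ ≤ 2 ^ (d - 1) * |(r : ℝ) - b| := hi
          _ ≤ 2 ^ (d - 1) * (κ * Q) := mul_le_mul_of_nonneg_left hrb (by positivity)
      have e5 : ω * (1 + ‖θ i‖) ^ (d - 1) * ‖t k - θ i‖ ≤ 2 ^ (d - 1) * κ := by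
        have : Q * (ω * (1 + ‖θ i‖) ^ (d - 1) * ‖t k - θ i‖) ≤ Q * (2 ^ (d - 1) * κ) := by
          nlinarith
        exact le_of_mul_le_mul_left this hQ0
      calc ω * Y ^ (d - 1) * ‖t k - θ i‖
          ≤ ω * (C2 ^ (d - 1) * (1 + ‖θ i‖) ^ (d - 1)) * ‖t k - θ i‖ :=
            mul_le_mul_of_nonneg_right (mul_le_mul_of_nonneg_left e3 hω.le) (norm_nonneg _)
        _ = C2 ^ (d - 1) * (ω * (1 + ‖θ i‖) ^ (d - 1) * ‖t k - θ i‖) := by ring
        _ ≤ C2 ^ (d - 1) * (2 ^ (d - 1) * κ) :=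
            mul_le_mul_of_nonneg_left e5 (by positivity)
        _ = C2 ^ (d - 1) * 2 ^ (d - 1) * κ := by ring
    choose ι hι using hcl
    exact ⟨F, t, ι, hF, hFe, ht, hroot, hroot2, hι⟩
  have hne : Nonempty (Fin d) := ⟨⟨0, by omega⟩⟩
  choose! F t ι hF1 hF2 hF3 hF4 hF5 hF6 using hdata
  have hcard : (univ : Finset (Fin e → Fin d)).card = d ^ e := by
    rw [card_univ, Fintype.card_fun, Fintype.card_fin, Fintype.card_fin]
  rw [← hcard]
  apply card_le_card_of_injOn ι (fun _ _ => mem_univ _)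
  intro r hr r' hr' hιι
  have hr : r ∈ S := hr
  have hr' : r' ∈ S := hr'
  -- it suffices that F r = F r'
  have hFF : F r = F r' := by
    apply redu_eq_of_eval e _ _ (hF2 r hr).le (hF2 r' hr').le
    intro m hm
    -- complex evaluation
    have ev : ∀ s ∈ S, (((F s).eval (m : ℤ) : ℤ) : ℂ) = u * ∏ k, ((m : ℂ) - t s k) := by
      intro s hs
      have h1 : ((F s).map (algebraMap ℤ ℂ)).eval (m : ℂ) = (((F s).eval (m : ℤ) : ℤ) : ℂ) := by
        have := Polynomial.eval_map_apply (f := algebraMap ℤ ℂ) (p := F s) (x := (m : ℤ))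
        simpa only [algebraMap_int_eq, eq_intCast, Int.cast_natCast] using this
      rw [← h1, hF3 s hs, eval_mul, eval_prod]
      simp
    set M : ℝ := d * C2 * Y with hM
    have hdR : (2 : ℝ) ≤ d := by exact_mod_cast hd
    have hdC : (1 : ℝ) ≤ d * C2 := by nlinarith
    have hM1 : 1 ≤ M := by nlinarith
    have hnorm : ∀ s ∈ S, ∀ k, ‖(m : ℂ) - t s k‖ ≤ M := by
      intro s hs k
      have h1 : 1 + ‖t s k‖ ≤ C2 * Y := by
        apply hsize b s _ _ _ (hθr _) (hF5 s hs k)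
        rw [abs_sub_comm]
        refine (hS s hs).1.trans ?_
        nlinarith
      have h2 : ((m : ℕ) : ℝ) ≤ d - 1 := by
        have : m + 1 ≤ d := by omega
        have : ((m : ℝ) + 1) ≤ d := by exact_mod_cast this
        linarith
      have h3 := norm_nonneg (t s k)
      calc ‖(m : ℂ) - t s k‖ ≤ ‖(m : ℂ)‖ + ‖t s k‖ := norm_sub_le _ _
        _ = m + ‖t s k‖ := by rw [Complex.norm_natCast]
        _ ≤ d * (1 + ‖t s k‖) := by nlinarith
        _ ≤ d * (C2 * Y) := by nlinarith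
        _ = M := by rw [hM]; ring
    have h1 := redu_prod_sub e M hM1 (fun k => (m : ℂ) - t r k) (fun k => (m : ℂ) - t r' k)
      (hnorm r hr) (hnorm r' hr')
    have h2 : ∀ k, ω * Y ^ (d - 1) * ‖((m : ℂ) - t r k) - ((m : ℂ) - t r' k)‖
        ≤ C2 ^ d * 2 ^ d * κ := by
      intro k
      have e1 : ((m : ℂ) - t r k) - ((m : ℂ) - t r' k)
          = (t r' k - θ (ι r' k)) - (t r k - θ (ι r k)) := by
        rw [hιι]; ring
      rw [e1]
      have e2 := hF6 r hr k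
      have e3 := hF6 r' hr' k
      have e4 : C2 ^ (d - 1) * 2 ^ (d - 1) * κ + C2 ^ (d - 1) * 2 ^ (d - 1) * κ
          ≤ C2 ^ d * 2 ^ d * κ := by
        have e5 : (2 : ℝ) ^ d = 2 ^ (d - 1) * 2 := by
          rw [← pow_succ]
          congr 1
          omega
        have e6 : C2 ^ (d - 1) ≤ C2 ^ d := pow_le_pow_right₀ hC2 (by omega)
        rw [e5]
        have e7 : 0 ≤ (2 : ℝ) ^ (d - 1) * κ := by positivity
        nlinarith
      calc ω * Y ^ (d - 1) * ‖(t r' k - θ (ι r' k)) - (t r k - θ (ι r k))‖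
          ≤ ω * Y ^ (d - 1) * (‖t r' k - θ (ι r' k)‖ + ‖t r k - θ (ι r k)‖) :=
            mul_le_mul_of_nonneg_left (norm_sub_le _ _) (by positivity)
        _ = ω * Y ^ (d - 1) * ‖t r' k - θ (ι r' k)‖ + ω * Y ^ (d - 1) * ‖t r k - θ (ι r k)‖ := by
            ring
        _ ≤ C2 ^ (d - 1) * 2 ^ (d - 1) * κ + C2 ^ (d - 1) * 2 ^ (d - 1) * κ := add_le_add e3 e2
        _ ≤ C2 ^ d * 2 ^ d * κ := e4
    have h3 : ω * Y ^ (d - 1) * ∑ k, ‖((m : ℂ) - t r k) - ((m : ℂ) - t r' k)‖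
        ≤ d * (C2 ^ d * 2 ^ d * κ) := by
      rw [mul_sum]
      calc ∑ k, ω * Y ^ (d - 1) * ‖((m : ℂ) - t r k) - ((m : ℂ) - t r' k)‖
          ≤ ∑ _k : Fin e, C2 ^ d * 2 ^ d * κ := sum_le_sum (fun k _ => h2 k)
        _ = e * (C2 ^ d * 2 ^ d * κ) := by simp
        _ ≤ d * (C2 ^ d * 2 ^ d * κ) := by
            apply mul_le_mul_of_nonneg_right _ (by positivity)
            exact_mod_cast he.le
    have h4 : M ^ e ≤ (d * C2) ^ d * Y ^ (d - 1) := by
      rw [hM, mul_pow]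
      apply mul_le_mul
      · exact pow_le_pow_right₀ hdC he.le
      · exact pow_le_pow_right₀ hY1 (by omega)
      · positivity
      · positivity
    have h5 : ω * ‖(((F r).eval (m : ℤ) : ℤ) : ℂ) - (((F r').eval (m : ℤ) : ℤ) : ℂ)‖ ≤ ω / 2 := by
      rw [ev r hr, ev r' hr', ← mul_sub, norm_mul, Complex.norm_natCast]
      calc ω * (u * ‖∏ k, ((m : ℂ) - t r k) - ∏ k, ((m : ℂ) - t r' k)‖)
          ≤ ω * (u * (M ^ e * ∑ k, ‖((m : ℂ) - t r k) - ((m : ℂ) - t r' k)‖)) := by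
            apply mul_le_mul_of_nonneg_left _ hω.le
            apply mul_le_mul_of_nonneg_left _ (by positivity)
            exact h1
        _ ≤ ω * (u * ((d * C2) ^ d * Y ^ (d - 1)
              * ∑ k, ‖((m : ℂ) - t r k) - ((m : ℂ) - t r' k)‖)) := by
            apply mul_le_mul_of_nonneg_left _ hω.le
            apply mul_le_mul_of_nonneg_left _ (by positivity)
            apply mul_le_mul_of_nonneg_right h4
            exact sum_nonneg (fun k _ => norm_nonneg _)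
        _ = u * (d * C2) ^ d *
              (ω * Y ^ (d - 1) * ∑ k, ‖((m : ℂ) - t r k) - ((m : ℂ) - t r' k)‖) := by ring
        _ ≤ u * (d * C2) ^ d * (d * (C2 ^ d * 2 ^ d * κ)) :=
            mul_le_mul_of_nonneg_left h3 (by positivity)
        _ = u * κ * ((d * C2) ^ d * d * 2 ^ d * C2 ^ d) := by ring
        _ ≤ ω / 2 := huκ
    have h6 : ‖(((F r).eval (m : ℤ) - (F r').eval (m : ℤ) : ℤ) : ℂ)‖ < 1 := by
      have h7 : ω * ‖(((F r).eval (m : ℤ) - (F r').eval (m : ℤ) : ℤ) : ℂ)‖ ≤ ω * (1 / 2) := by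
        push_cast
        linarith
      have := le_of_mul_le_mul_left h7 hω
      linarith
    rw [Complex.norm_intCast] at h6
    have h8 : |(F r).eval (m : ℤ) - (F r').eval (m : ℤ)| < 1 := by exact_mod_cast h6
    rw [Int.abs_lt_one_iff] at h8
    omega
  have h1 := hF4 r hr ⟨0, by omega⟩
  rw [hFF] at h1
  have h2 := redu_root_of_dvd g _ r' (hF1 r' hr') _ h1
  have h3 := hF5 r hr ⟨0, by omega⟩
  rw [h3] at h2
  exact_mod_cast h2


open Classical in
lemma redu_cell (d : ℕ) (hd : 2 ≤ d) (C2 : ℝ) (hC2 : 1 ≤ C2) (Q : ℕ) (hQ : 1 ≤ Q) (g : ℤ[X])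
    (hgd : g.natDegree = d) (ω : ℝ) (hω : 0 < ω) (hω1 : ω ≤ 1)
    (hsize : ∀ (r r' : ℤ) (θ θ' : ℂ), |(r : ℝ) - r'| ≤ Q → aeval θ g = (r : ℂ) →
      aeval θ' g = (r' : ℂ) → 1 + ‖θ'‖ ≤ C2 * (1 + ‖θ‖))
    (r0 : ℤ) (e : ℕ) (he1 : 1 ≤ e) (he : e < d) (u : ℕ) (hu : 1 ≤ u) :
    (((Ico r0 (r0 + Q)).filter (fun r : ℤ => Tame g Q ω r ∧
      ∃ F : ℤ[X], F ∣ gr g r ∧ F.natDegree = e ∧ F.leadingCoeff = (u : ℤ))).card : ℝ) ≤
      4 * d ^ d * ((d * C2) ^ d * d * 2 ^ d * C2 ^ d) * (u / ω) := by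
  set K : ℝ := (d * C2) ^ d * d * 2 ^ d * C2 ^ d with hK
  set U := (Ico r0 (r0 + Q)).filter (fun r : ℤ => Tame g Q ω r ∧
      ∃ F : ℤ[X], F ∣ gr g r ∧ F.natDegree = e ∧ F.leadingCoeff = (u : ℤ)) with hU
  have hQ0 : (0 : ℝ) < Q := by exact_mod_cast (by omega : 0 < Q)
  have hu0 : (1 : ℝ) ≤ u := by exact_mod_cast hu
  have hdR : (2 : ℝ) ≤ d := by exact_mod_cast hd
  have hdC : (1 : ℝ) ≤ d * C2 := by nlinarith
  have hK1 : 1 ≤ K := by
    rw [hK]
    have h1 : (1 : ℝ) ≤ (d * C2) ^ d := one_le_pow₀ hdC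
    have h2 : (1 : ℝ) ≤ 2 ^ d := one_le_pow₀ (by norm_num)
    have h3 : (1 : ℝ) ≤ C2 ^ d := one_le_pow₀ hC2
    have h4 : (1 : ℝ) ≤ (d * C2) ^ d * d := by nlinarith
    have h5 : (1 : ℝ) ≤ (d * C2) ^ d * d * 2 ^ d := by nlinarith
    nlinarith
  set κ : ℝ := ω / (2 * K * u) with hκ
  have hκ0 : 0 < κ := by rw [hκ]; positivity
  have hκ1 : κ ≤ 1 := by
    rw [hκ, div_le_one (by positivity)]
    nlinarith
  have huκ : u * κ * K ≤ ω / 2 := by
    apply le_of_eq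
    rw [hκ]
    field_simp
  have h1κ : 1 / κ = 2 * K * u / ω := by rw [hκ]; field_simp
  have hκinv : 1 ≤ 1 / κ := by
    rw [le_div_iff₀ hκ0]; linarith
  have hκQ : 0 < κ * Q := by positivity
  have hmaps : ∀ r ∈ U, ⌊((r : ℝ) - r0) / (κ * Q)⌋₊ ∈ range (⌊1 / κ⌋₊ + 1) := by
    intro r hr
    rw [hU, mem_filter, mem_Ico] at hr
    rw [mem_range]
    apply Nat.lt_succ_of_le
    apply Nat.floor_le_floor
    have h1 : (r : ℝ) - r0 ≤ Q := by
      have := hr.1.2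
      have h2 : (r : ℝ) < r0 + Q := by exact_mod_cast this
      linarith
    calc ((r : ℝ) - r0) / (κ * Q) ≤ Q / (κ * Q) := by
          apply div_le_div_of_nonneg_right h1 hκQ.le
      _ = 1 / κ := by field_simp
  have hfib : ∀ j ∈ range (⌊1 / κ⌋₊ + 1),
      (U.filter (fun r : ℤ => ⌊((r : ℝ) - r0) / (κ * Q)⌋₊ = j)).card ≤ d ^ e := by
    intro j _
    rcases (U.filter (fun r : ℤ => ⌊((r : ℝ) - r0) / (κ * Q)⌋₊ = j)).eq_empty_or_nonempty with
      h0 | ⟨b, hb⟩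
    · rw [h0]; simp
    · have hbU := (mem_filter.mp hb).1
      have hbj := (mem_filter.mp hb).2
      have hbU' := hbU
      rw [hU, mem_filter, mem_Ico] at hbU'
      apply redu_fiber d hd C2 hC2 Q hQ g hgd ω hω κ hκ0 hκ1 hsize b hbU'.2.1 e he1 he u huκ
      intro r hr
      have hrU := (mem_filter.mp hr).1
      have hrj := (mem_filter.mp hr).2
      rw [hU, mem_filter, mem_Ico] at hrU
      refine ⟨?_, hrU.2.2⟩
      have hb0 : 0 ≤ ((b : ℝ) - r0) / (κ * Q) := by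
        apply div_nonneg _ hκQ.le
        have : (r0 : ℝ) ≤ b := by exact_mod_cast hbU'.1.1
        linarith
      have hr0' : 0 ≤ ((r : ℝ) - r0) / (κ * Q) := by
        apply div_nonneg _ hκQ.le
        have : (r0 : ℝ) ≤ r := by exact_mod_cast hrU.1.1
        linarith
      have a1 := Nat.floor_le hb0
      have a2 := Nat.lt_floor_add_one (((b : ℝ) - r0) / (κ * Q))
      have a3 := Nat.floor_le hr0'
      have a4 := Nat.lt_floor_add_one (((r : ℝ) - r0) / (κ * Q))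
      rw [hbj] at a1 a2
      rw [hrj] at a3 a4
      have a5 : |((r : ℝ) - r0) / (κ * Q) - ((b : ℝ) - r0) / (κ * Q)| ≤ 1 := by
        rw [abs_le]
        constructor <;> linarith
      have a6 : ((r : ℝ) - r0) / (κ * Q) - ((b : ℝ) - r0) / (κ * Q) = ((r : ℝ) - b) / (κ * Q) := by
        rw [← sub_div]
        congr 1
        ring
      rw [a6, abs_div, abs_of_pos hκQ, div_le_one hκQ] at a5
      exact a5
  have hcount := card_le_mul_card_image_of_maps_to hmaps (d ^ e) hfib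
  rw [card_range] at hcount
  have hcount' : (U.card : ℝ) ≤ (d : ℝ) ^ e * (⌊1 / κ⌋₊ + 1) := by exact_mod_cast hcount
  have hfl : (⌊1 / κ⌋₊ : ℝ) ≤ 1 / κ := Nat.floor_le (by positivity)
  have hde : (d : ℝ) ^ e ≤ (d : ℝ) ^ d := pow_le_pow_right₀ (by linarith) he.le
  calc (U.card : ℝ) ≤ (d : ℝ) ^ e * (⌊1 / κ⌋₊ + 1) := hcount'
    _ ≤ (d : ℝ) ^ d * (2 * (1 / κ)) := by
        apply mul_le_mul hde _ (by positivity) (by positivity)
        linarith
    _ = 4 * d ^ d * K * (u / ω) := by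
        rw [h1κ]; ring

open Classical in
theorem reducible_count (d : ℕ) (hd : 2 ≤ d) (c0 C0 : ℝ) (hc0 : 0 < c0) (hC0 : 0 < C0) :
    ∃ C : ℝ, 0 < C ∧ ∀ (Q : ℕ) (g : ℤ[X]) (ω : ℝ) (r0 : ℤ), 1 ≤ Q → g.natDegree = d →
    g.coeff 0 = 0 → (∀ j, |(g.coeff j : ℝ)| ≤ C0 * Q) → c0 * Q ≤ |(g.leadingCoeff : ℝ)| →
    0 < ω → ω ≤ 1 →
    (((Ico r0 (r0 + Q)).filter (fun r : ℤ =>
      ¬ Irreducible ((gr g r).map (Int.castRingHom ℚ)))).card : ℝ) ≤
      (((Ico r0 (r0 + Q)).filter (fun r : ℤ => ¬ Tame g Q ω r)).card : ℝ) +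
      C * (g.leadingCoeff.natAbs.divisors.card : ℝ) *
        ((g.leadingCoeff.natAbs : ℝ) ^ (1 / 2 : ℝ) / ω) := by
  obtain ⟨C2, hC2, hsize⟩ := redu_size d (by omega) c0 C0 hc0 hC0
  have hd0 : (0 : ℝ) < d := by exact_mod_cast (by omega : 0 < d)
  have hC20 : (0 : ℝ) < C2 := by linarith
  refine ⟨d * (4 * d ^ d * ((d * C2) ^ d * d * 2 ^ d * C2 ^ d)), by positivity, ?_⟩
  intro Q g ω r0 hQ hgd _ hcf hlead hω hω1
  have hsz := hsize Q g hQ hgd hcf hlead
  set A := g.leadingCoeff.natAbs with hA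
  set B : ℝ := 4 * d ^ d * ((d * C2) ^ d * d * 2 ^ d * C2 ^ d) with hB
  have hB0 : 0 < B := by rw [hB]; positivity
  have hg0 : g ≠ 0 := by
    rintro rfl
    simp at hgd
    omega
  have hA0 : A ≠ 0 := by
    rw [hA, Int.natAbs_ne_zero]
    exact leadingCoeff_ne_zero.mpr hg0
  have hgrd : ∀ r : ℤ, (gr g r).natDegree = d := by
    intro r
    unfold gr
    rw [natDegree_sub_C, hgd]
  have hgrl : ∀ r : ℤ, (gr g r).leadingCoeff = g.leadingCoeff := by
    intro r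
    unfold gr
    apply leadingCoeff_sub_of_degree_lt
    refine lt_of_le_of_lt degree_C_le ?_
    rw [← natDegree_pos_iff_degree_pos]
    omega
  set U : ℕ → ℕ → Finset ℤ := fun u e => (Ico r0 (r0 + Q)).filter (fun r : ℤ => Tame g Q ω r ∧
      ∃ F : ℤ[X], F ∣ gr g r ∧ F.natDegree = e ∧ F.leadingCoeff = (u : ℤ)) with hU
  set Dv := A.divisors.filter (fun u => u ^ 2 ≤ A) with hDv
  have hsub : (Ico r0 (r0 + Q)).filter (fun r : ℤ =>
      ¬ Irreducible ((gr g r).map (Int.castRingHom ℚ)))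
      ⊆ (Ico r0 (r0 + Q)).filter (fun r : ℤ => ¬ Tame g Q ω r) ∪
        Dv.biUnion (fun u => (Ico 1 d).biUnion (fun e => U u e)) := by
    intro r hr
    rw [mem_filter] at hr
    by_cases hT : Tame g Q ω r
    · apply mem_union_right
      obtain ⟨F, h1, h2, h3, h4, h5, h6⟩ := redu_data d hd (gr g r) (hgrd r) hr.2
      rw [hgrl] at h5 h6
      rw [mem_biUnion]
      refine ⟨F.leadingCoeff.natAbs, ?_, ?_⟩
      · rw [hDv, mem_filter, Nat.mem_divisors]
        exact ⟨⟨h5, hA0⟩, h6⟩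
      · rw [mem_biUnion]
        refine ⟨F.natDegree, mem_Ico.mpr ⟨h2, h3⟩, ?_⟩
        rw [hU, mem_filter]
        refine ⟨hr.1, hT, F, h1, rfl, ?_⟩
        omega
    · apply mem_union_left
      rw [mem_filter]
      exact ⟨hr.1, hT⟩
  have hcard1 := (card_le_card hsub).trans (card_union_le _ _)
  have hcard2 : ((Dv.biUnion (fun u => (Ico 1 d).biUnion (fun e => U u e))).card : ℝ)
      ≤ (A.divisors.card : ℝ) * (d * (B * ((A : ℝ) ^ (1 / 2 : ℝ) / ω))) := by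
    calc ((Dv.biUnion (fun u => (Ico 1 d).biUnion (fun e => U u e))).card : ℝ)
        ≤ ∑ u ∈ Dv, ((((Ico 1 d).biUnion (fun e => U u e)).card : ℕ) : ℝ) := by
          exact_mod_cast card_biUnion_le
      _ ≤ ∑ u ∈ Dv, (d * (B * ((A : ℝ) ^ (1 / 2 : ℝ) / ω))) := by
          apply sum_le_sum
          intro u hu
          rw [hDv, mem_filter, Nat.mem_divisors] at hu
          have hu1 : 1 ≤ u := Nat.pos_of_dvd_of_pos hu.1.1 (Nat.pos_of_ne_zero hA0)
          have huA : (u : ℝ) ≤ (A : ℝ) ^ (1 / 2 : ℝ) := by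
            rw [← Real.sqrt_eq_rpow]
            apply Real.le_sqrt_of_sq_le
            exact_mod_cast hu.2
          calc ((((Ico 1 d).biUnion (fun e => U u e)).card : ℕ) : ℝ)
              ≤ ∑ e ∈ Ico 1 d, (((U u e).card : ℕ) : ℝ) := by
                exact_mod_cast card_biUnion_le
            _ ≤ ∑ e ∈ Ico 1 d, B * ((A : ℝ) ^ (1 / 2 : ℝ) / ω) := by
                apply sum_le_sum
                intro e he
                rw [mem_Ico] at he
                refine (redu_cell d hd C2 hC2 Q hQ g hgd ω hω hω1 hsz r0 e he.1 he.2 u hu1).trans ?_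
                apply mul_le_mul_of_nonneg_left _ hB0.le
                exact div_le_div_of_nonneg_right huA hω.le
            _ = ((d - 1 : ℕ) : ℝ) * (B * ((A : ℝ) ^ (1 / 2 : ℝ) / ω)) := by
                rw [sum_const, Nat.card_Ico, nsmul_eq_mul]
            _ ≤ d * (B * ((A : ℝ) ^ (1 / 2 : ℝ) / ω)) := by
                apply mul_le_mul_of_nonneg_right _ (by positivity)
                exact_mod_cast Nat.sub_le d 1
      _ = (Dv.card : ℝ) * (d * (B * ((A : ℝ) ^ (1 / 2 : ℝ) / ω))) := by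
          rw [sum_const, nsmul_eq_mul]
      _ ≤ (A.divisors.card : ℝ) * (d * (B * ((A : ℝ) ^ (1 / 2 : ℝ) / ω))) := by
          apply mul_le_mul_of_nonneg_right _ (by positivity)
          exact_mod_cast card_le_card (filter_subset _ _)
  calc (((Ico r0 (r0 + Q)).filter (fun r : ℤ =>
      ¬ Irreducible ((gr g r).map (Int.castRingHom ℚ)))).card : ℝ)
      ≤ (((Ico r0 (r0 + Q)).filter (fun r : ℤ => ¬ Tame g Q ω r)).card : ℝ) +
        ((Dv.biUnion (fun u => (Ico 1 d).biUnion (fun e => U u e))).card : ℝ) := by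
        exact_mod_cast hcard1
    _ ≤ (((Ico r0 (r0 + Q)).filter (fun r : ℤ => ¬ Tame g Q ω r)).card : ℝ) +
        (A.divisors.card : ℝ) * (d * (B * ((A : ℝ) ^ (1 / 2 : ℝ) / ω))) := by linarith
    _ = _ := by ring

end Pool.Agent.H80.EK
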