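import Pool.Agent.H80.EK.Dens

set_option autoImplicit false

/-! # SEC: the second moment of the small primes sum -/

noncomputable section

namespace Pool.Agent.H80.EK

open Polynomial Finset

theorem second_moment (f : ℝ[X]) (g : ℤ[X]) (N Q : ℕ) (hN : 1 ≤ N) (hd : 1 ≤ g.natDegree)
    (P : ℕ) (δ : ℝ) (hδ : 0 ≤ δ)
    (heq : ∀ D : ℕ, 1 ≤ D → D ≤ P ^ 2 → ∀ u v : ℤ,
      |(((Icc 1 N).filter (fun n : ℕ => (D : ℤ) ∣ (n : ℤ) - u ∧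
        (D : ℤ) ∣ ⌊f.eval (n : ℝ)⌋ - v)).card : ℝ) / N - 1 / (D : ℝ) ^ 2| ≤ δ)
    (S : Finset ℕ) (hS : ∀ p ∈ S, p.Prime ∧ ¬ p ∣ mg Q g ∧ p ≤ P) :
    (∑ n ∈ Icc 1 N, (∑ p ∈ S, ((rho (gr g (rr f Q g n)) p : ℝ) - 1) / p) ^ 2) / N ≤
      (g.natDegree : ℝ) ^ 2 * (∑ p ∈ S, 1 / (p : ℝ) ^ 2 + δ * (P : ℝ) ^ 6) := by
  sorry

end Pool.Agent.H80.EK
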