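import Pool.Agent.H80.EK.EquiB
import Pool.Agent.H80.EK.Sec
import Pool.Agent.H80.EK.Mert

set_option autoImplicit false

/-! # SMALL: small primes are under control for most n -/

noncomputable section

namespace Pool.Agent.H80.EK

open Polynomial Finset

open Classical in
theorem small_primes (f : ℝ[X]) (hd : 1 ≤ f.natDegree) : ∃ c : ℝ, 0 < c ∧ c ≤ 1 ∧
    ∀ ε : ℝ, 0 < ε → ∃ Cε R0 : ℝ, 0 ≤ Cε ∧ 2 ≤ R0 ∧
    ∀ (N : ℕ) (Δ : ℝ) (Q : ℕ) (g : ℤ[X]), Major f N Δ Q g → 1 ≤ Δ → Δ ^ 64 ≤ N →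
    R0 ≤ RR f N Q g →
    (((Icc 1 N).filter (fun n : ℕ => ¬ (∀ x : ℝ, 2 ≤ x → x ≤ (RR f N Q g) ^ c →
      |∑ p ∈ PR (mg Q g) x, ((rho (gr g (rr f Q g n)) p : ℝ) - 1) / p| ≤ Cε))).card : ℝ) ≤
      ε * N := by
  sorry

end Pool.Agent.H80.EK
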