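import Pool.Agent.H80.EK.Basic

set_option autoImplicit false

/-! # SPLIT: removing the top term on a short progression -/

noncomputable section

namespace Pool.Agent.H80.EK

open Polynomial Finset

theorem weyl_split (d : ℕ) (hd : 1 ≤ d) : ∃ C0 : ℕ, 1 ≤ C0 ∧ ∀ P : ℝ[X], P.natDegree ≤ d + 1 →
    ∀ N : ℕ, 1 ≤ N → ∀ a b : ℕ, b ≤ N → ∀ K U : ℝ, 1 ≤ K → 1 ≤ U → ∀ q : ℕ, 1 ≤ q →
    (q : ℝ) ≤ U → nn (q * P.coeff (d + 1)) ≤ U / (N : ℝ) ^ (d + 1) → C0 * K * U ^ 2 ≤ N →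
    (N : ℝ) / K ≤ ‖∑ n ∈ Ioc a b, e (P.eval (n : ℝ))‖ →
    ∃ (c : ℤ) (N' a' b' : ℕ), |(c : ℝ)| ≤ 2 * N ∧ 1 ≤ N' ∧ N' ≤ N ∧
      (N : ℝ) ≤ C0 * K * U ^ 2 * N' ∧ b' ≤ N' ∧
      (N' : ℝ) / (4 * K) ≤ ‖∑ m ∈ Ioc a' b',
        e (((P.erase (d + 1)).comp (C (c : ℝ) + C (q : ℝ) * X)).eval (m : ℝ))‖ := by
  sorry

end Pool.Agent.H80.EK
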