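import Pool.Agent.H80.EK.Diff
import Pool.Agent.H80.EK.Recur

set_option autoImplicit false

/-! # TOP: the top coefficient -/

noncomputable section

namespace Pool.Agent.H80.EK

open Polynomial Finset

theorem weyl_top (d : ℕ) (hd : 1 ≤ d) (IH : WeylInv d) : WeylTop (d + 1) := by
  sorry

end Pool.Agent.H80.EK
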