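import Pool.Agent.H80.EK.Basic

set_option autoImplicit false

/-! # WBASE: the inverse theorem for linear phases -/

noncomputable section

namespace Pool.Agent.H80.EK

open Polynomial Finset

theorem weyl_zero : WeylInv 0 := by
  sorry

theorem weyl_base : WeylInv 1 := by
  sorry

end Pool.Agent.H80.EK
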