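import Pool.Agent.H80.EK.WBase
import Pool.Agent.H80.EK.Top
import Pool.Agent.H80.EK.Split
import Pool.Agent.H80.EK.Recov

set_option autoImplicit false

/-! # WINV: the quantitative Weyl inverse theorem -/

noncomputable section

namespace Pool.Agent.H80.EK

open Polynomial Finset

theorem weyl_inv (d : ℕ) : WeylInv d := by
  sorry

end Pool.Agent.H80.EK
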